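import Pool.Agent.VFPP.Defs
import Pool.Agent.VK3.PolyPt

/-!
# The discriminants have two different zeros
-/

set_option autoImplicit false

noncomputable section

namespace Pool.Agent.VFPP

open Pool.Agent.ZCyc Pool.Agent.VFP Polynomial

universe u

variable {k : Type u} [Field k] [IsAlgClosed k] [CharZero k]

omit [IsAlgClosed k] [CharZero k] in
/-- values of forms at multiples of a vector -/
private theorem tz_eval_hom {F : MvPolynomial (Fin 2) k} {m : ℕ} (hF : F.IsHomogeneous m) (c : k)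
    (v : Fin 2 → k) :
    MvPolynomial.eval (fun i => c * v i) F = c ^ m * MvPolynomial.eval v F := by
  rw [MvPolynomial.eval_eq, MvPolynomial.eval_eq, Finset.mul_sum]
  refine Finset.sum_congr rfl fun d hd => ?_
  have h2 : ∏ i ∈ d.support, c ^ d i = c ^ m := by
    rw [Finset.prod_pow_eq_pow_sum, ← hF.degree_eq_sum_deg_support hd]
  simp only [mul_pow, Finset.prod_mul_distrib, h2]
  ring

/-- the restriction of a form to the line `γ + s α` -/
private def tz_line (γ α : Fin 2 → k) (F : MvPolynomial (Fin 2) k) : k[X] :=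
  MvPolynomial.aeval (fun i => C (γ i) + C (α i) * X) F

omit [IsAlgClosed k] [CharZero k] in
private theorem tz_line_eval (γ α : Fin 2 → k) (F : MvPolynomial (Fin 2) k) (s : k) :
    (tz_line γ α F).eval s = MvPolynomial.eval (fun i => γ i + s * α i) F := by
  unfold tz_line
  rw [← Polynomial.coe_aeval_eq_eval, MvPolynomial.comp_aeval_apply, MvPolynomial.aeval_eq_eval]
  congr 2
  funext i
  rw [map_add, map_mul, Polynomial.aeval_C, Polynomial.aeval_C, Polynomial.aeval_X,
    Algebra.algebraMap_self, RingHom.id_apply, RingHom.id_apply, mul_comm]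

omit [CharZero k] in
/-- forms which are constant on the line `γ + s α` -/
private theorem tz_const {F : MvPolynomial (Fin 2) k} {m : ℕ} (hF : F.IsHomogeneous m)
    {γ α : Fin 2 → k} (hαγ : α 0 * γ 1 ≠ α 1 * γ 0)
    (h : tz_line γ α F = C ((tz_line γ α F).eval 0)) :
    F = MvPolynomial.C (MvPolynomial.eval γ F) *
      (MvPolynomial.C (α 0 * γ 1 - α 1 * γ 0)⁻¹ *
        (MvPolynomial.C (α 0) * MvPolynomial.X 1 - MvPolynomial.C (α 1) * MvPolynomial.X 0)) ^ m := by
  set D : k := α 0 * γ 1 - α 1 * γ 0 with hD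
  have hD0 : D ≠ 0 := sub_ne_zero.2 hαγ
  have h1 : ∀ s : k, MvPolynomial.eval (fun i => γ i + s * α i) F = MvPolynomial.eval γ F := by
    intro s
    rw [← tz_line_eval, h, Polynomial.eval_C, tz_line_eval]
    congr 2
    funext i
    simp
  -- the identity for `u ≠ 0`
  have h2 : ∀ w t : k, MvPolynomial.eval (fun i => w * γ i + t * α i) F =
      w ^ m * MvPolynomial.eval γ F := by
    intro w t
    have h3 : ∀ w : k, w ≠ 0 → MvPolynomial.eval (fun i => w * γ i + t * α i) F =
        w ^ m * MvPolynomial.eval γ F := by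
      intro w hw
      have h4 : (fun i => w * γ i + t * α i) = fun i => w * (γ i + t / w * α i) := by
        funext i
        field_simp
      rw [h4, tz_eval_hom hF, h1]
    -- polynomial identity in `w`
    have h5 : (MvPolynomial.aeval (fun i => X * C (γ i) + C (t * α i)) F : k[X]) =
        X ^ m * C (MvPolynomial.eval γ F) := by
      refine Polynomial.eq_of_infinite_eval_eq _ _ ?_
      refine (Set.finite_singleton (0 : k)).infinite_compl.mono fun w hw => ?_
      have hw0 : w ≠ 0 := hw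
      show Polynomial.eval w _ = Polynomial.eval w _
      rw [← Polynomial.coe_aeval_eq_eval, MvPolynomial.comp_aeval_apply,
        MvPolynomial.aeval_eq_eval]
      simp only [map_add, map_mul, Polynomial.aeval_X, Polynomial.aeval_C, map_pow,
        Algebra.algebraMap_self, RingHom.id_apply]
      rw [← h3 w hw0]
    have h6 := congrArg (Polynomial.eval w) h5
    rw [← Polynomial.coe_aeval_eq_eval, MvPolynomial.comp_aeval_apply,
        MvPolynomial.aeval_eq_eval] at h6
    simp only [map_add, map_mul, Polynomial.aeval_X, Polynomial.aeval_C, map_pow,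
        Algebra.algebraMap_self, RingHom.id_apply] at h6
    rw [← h6]
  refine MvPolynomial.funext fun v => ?_
  have h7 : v = fun i => (D⁻¹ * (α 0 * v 1 - α 1 * v 0)) * γ i +
      (D⁻¹ * (v 0 * γ 1 - v 1 * γ 0)) * α i := by
    funext i
    fin_cases i
    · simp only [Fin.zero_eta, Fin.isValue]
      field_simp
      rw [hD]
      ring
    · simp only [Fin.mk_one, Fin.isValue]
      field_simp
      rw [hD]
      ring
  have h8 : MvPolynomial.eval v F =
      (D⁻¹ * (α 0 * v 1 - α 1 * v 0)) ^ m * MvPolynomial.eval γ F := by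
    conv_lhs => rw [h7]
    rw [h2]
  rw [h8]
  simp only [map_mul, map_pow, map_sub, MvPolynomial.eval_C, MvPolynomial.eval_X]
  ring

/-- a form of positive degree has a nontrivial zero -/
private theorem tz_zero {F : MvPolynomial (Fin 2) k} {m : ℕ} (hF : F.IsHomogeneous m)
    (hm : 0 < m) : ∃ α : Fin 2 → k, (∃ i, α i ≠ 0) ∧ MvPolynomial.eval α F = 0 := by
  by_cases h : ∃ s, (tz_line ![1, 0] ![0, 1] F).eval s = 0
  · obtain ⟨s, hs⟩ := h
    rw [tz_line_eval] at hs
    refine ⟨_, ⟨0, ?_⟩, hs⟩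
    simp
  · have h1 : (tz_line ![1, 0] ![0, 1] F).degree ≤ 0 := by
      by_contra h2
      have h2' : 0 < (tz_line ![1, 0] ![0, 1] F).degree := not_le.1 h2
      obtain ⟨s, hs⟩ := IsAlgClosed.exists_root (tz_line ![1, 0] ![0, 1] F) h2'.ne'
      exact h ⟨s, hs⟩
    have h3 := Polynomial.eq_C_of_degree_le_zero h1
    have h4 : tz_line ![1, 0] ![0, 1] F = C ((tz_line ![1, 0] ![0, 1] F).eval 0) := by
      conv_lhs => rw [h3]
      rw [Polynomial.coeff_zero_eq_eval_zero]
    have h5 := tz_const hF (γ := ![1, 0]) (α := ![0, 1]) (by simp) h4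
    refine ⟨![0, 1], ⟨1, by simp⟩, ?_⟩
    rw [h5]
    simp [hm.ne']

/-- Adapt `Pool.Agent.VK3.two_zeros`: some discriminant has a zero `α` since its degree is
`6 deg i > 0` (there is an index `i` since the sum of the degrees is `4`). If all zeros of all
discriminants are proportional to `α`, then on the line `γ + s α` all discriminants are constants
`≠ 0`, so `A_i` and `B_i` are constant there by `VK3.poly_disc`, hence `l ^ (2 deg i) ∣ A_i`,
`l ^ (3 deg i) ∣ B_i` and `∑ min (6 deg i) (6 deg i) = 24 ≥ 12`. -/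
theorem CYF.valid (X : CYF k) : X.D.Valid := by
  have hhom : ∀ i, (4 * X.D.A i ^ 3 + 27 * X.D.B i ^ 2).IsHomogeneous (6 * X.D.deg i) := by
    intro i
    have h1 : (4 * X.D.A i ^ 3).IsHomogeneous (6 * X.D.deg i) := by
      have h2 := ((X.homA i).pow 3).C_mul (4 : k)
      rw [map_ofNat] at h2
      rwa [show 2 * X.D.deg i * 3 = 6 * X.D.deg i by ring] at h2
    have h3 : (27 * X.D.B i ^ 2).IsHomogeneous (6 * X.D.deg i) := by
      have h2 := ((X.homB i).pow 2).C_mul (27 : k)
      rw [map_ofNat] at h2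
      rwa [show 3 * X.D.deg i * 2 = 6 * X.D.deg i by ring] at h2
    exact h1.add h3
  obtain ⟨i₀, hi₀⟩ : ∃ i₀ : Fin X.N, 0 < X.D.deg i₀ := by
    by_contra hN
    push Not at hN
    have h := X.sum
    rw [Finset.sum_eq_zero fun i _ => Nat.le_zero.1 (hN i)] at h
    exact absurd h (by norm_num)
  obtain ⟨α, ⟨i, hi⟩, hα⟩ := tz_zero (hhom i₀) (Nat.mul_pos (by norm_num) hi₀)
  refine ⟨X.pos, X.sum, X.surj, X.even, X.homA, X.homB, X.disc, ?_⟩
  by_contra hcon
  have hcon' : ∀ j, ∀ β : Fin 2 → k, α 0 * β 1 ≠ α 1 * β 0 →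
      MvPolynomial.eval β (4 * X.D.A j ^ 3 + 27 * X.D.B j ^ 2) ≠ 0 :=
    fun j β h1 h2 => hcon ⟨α, β, i₀, j, h1, hα, h2⟩
  obtain ⟨γ, hγ⟩ : ∃ γ : Fin 2 → k, α 0 * γ 1 ≠ α 1 * γ 0 := by
    fin_cases i
    · exact ⟨![0, 1], by simpa using hi⟩
    · exact ⟨![1, 0], by simpa using fun h => hi h.symm⟩
  have hind : ∀ s : k, α 0 * (γ 1 + s * α 1) ≠ α 1 * (γ 0 + s * α 0) := by
    intro s h
    apply hγ
    linear_combination h
  -- the linear form
  set l : MvPolynomial (Fin 2) k := MvPolynomial.C (α 0 * γ 1 - α 1 * γ 0)⁻¹ *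
        (MvPolynomial.C (α 0) * MvPolynomial.X 1 - MvPolynomial.C (α 1) * MvPolynomial.X 0) with hl
  have key : ∀ j, l ^ (2 * X.D.deg j) ∣ X.D.A j ∧ l ^ (3 * X.D.deg j) ∣ X.D.B j := by
    intro j
    -- the discriminant is constant on the line
    have hne : ∀ s, (tz_line γ α (4 * X.D.A j ^ 3 + 27 * X.D.B j ^ 2)).eval s ≠ 0 := by
      intro s
      rw [tz_line_eval]
      exact hcon' j _ (hind s)
    have hdeg : (tz_line γ α (4 * X.D.A j ^ 3 + 27 * X.D.B j ^ 2)).degree ≤ 0 := by
      by_contra h2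
      obtain ⟨s, hs⟩ := IsAlgClosed.exists_root _ (not_le.1 h2).ne'
      exact hne s hs
    have hC := Polynomial.eq_C_of_degree_le_zero hdeg
    set c : k := (tz_line γ α (4 * X.D.A j ^ 3 + 27 * X.D.B j ^ 2)).coeff 0 with hc
    have hc0 : c ≠ 0 := by
      have h1 := hne 0
      rwa [hC, Polynomial.eval_C] at h1
    have hAB : 4 * (tz_line γ α (X.D.A j)) ^ 3 + 27 * (tz_line γ α (X.D.B j)) ^ 2 = C c := by
      rw [← hC]
      simp [tz_line]
    obtain ⟨h1, h2⟩ := VK3.poly_disc hc0 hAB
    have h3 := tz_const (X.homA j) hγ h1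
    have h4 := tz_const (X.homB j) hγ h2
    rw [← hl] at h3 h4
    exact ⟨⟨_, by rw [mul_comm]; exact h3⟩, ⟨_, by rw [mul_comm]; exact h4⟩⟩
  have hlh : l.IsHomogeneous 1 := by
    refine MvPolynomial.IsHomogeneous.C_mul ?_ _
    exact (MvPolynomial.isHomogeneous_C_mul_X _ _).sub (MvPolynomial.isHomogeneous_C_mul_X _ _)
  have h5 : l = 0 := by
    refine X.canonical l (fun j => 2 * X.D.deg j) (fun j => 3 * X.D.deg j) hlh key ?_
    have h7 : ∀ j, min (3 * (2 * X.D.deg j)) (2 * (3 * X.D.deg j)) = 6 * X.D.deg j := by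
      intro j
      rw [show 3 * (2 * X.D.deg j) = 6 * X.D.deg j by ring,
        show 2 * (3 * X.D.deg j) = 6 * X.D.deg j by ring, min_self]
    simp only [h7]
    rw [← Finset.mul_sum, X.sum]
    norm_num
  have h6 : MvPolynomial.eval γ l = 1 := by
    rw [hl]
    simp only [map_mul, map_sub, MvPolynomial.eval_C, MvPolynomial.eval_X]
    exact inv_mul_cancel₀ (sub_ne_zero.2 hγ)
  rw [h5] at h6
  simp at h6

end Pool.Agent.VFPP
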