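import Pool.Agent.VFP.Defs

/-!
# Zero-cycles on products of Calabi-Yau fibre products of elliptic fibrations: definitions

A variety of the class `CYF` is a Calabi-Yau variety with canonical singularities which is fibred
over the line in products of elliptic curves (or their quotients by even numbers of sign changes),
see `Pool.Agent.VFP.Defs`: elliptic K3 surfaces with section, Schoen's Calabi-Yau threefolds, ...
We consider products `X 0 × ⋯ × X (m - 1)` of such varieties, their zero-cycles, and the morphisms
between such products whose components are constant or a factor followed by changes of the signs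
of the coordinates `y_b`.
-/

set_option autoImplicit false

noncomputable section

namespace Pool.Agent.VFPP

open Pool.Agent.ZCyc Pool.Agent.VFP

universe u

/-- The variety `X` of dimension `N + 1` over the line with coordinates `(s₀ : s₁)`, given by the
equations `y_b ² = ∏ z_i (x_i ³ + A_i(s) x_i z_i ² + B_i(s) z_i ³)`, `b < r` (the product over the
indices `i < N` of the block `b`), where `A_i` and `B_i` are binary forms of degrees `2 deg i` and
`3 deg i` (constants, if `deg i = 0`), the sum of the `deg i` is `4` (which means that the canonical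
class is trivial), and the sums over the blocks are even and positive. The discriminants are not
zero, and there is no point `l = 0` of the line at which `A_i` and `B_i` vanish to orders `a i` and
`b i` with `∑ i, min (3 a i) (2 b i) ≥ 12` (which means that the singularities are canonical; for
`N = 1` this says that the Weierstrass equation is minimal). -/
structure CYF (k : Type u) [Field k] where
  /-- the number of factors of the fibres -/
  N : ℕ
  /-- the number of blocks -/
  r : ℕ
  /-- degrees, blocks and coefficients -/
  D : Dat k N r
  pos : ∀ b, 0 < ∑ i with D.blk i = b, D.deg i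
  sum : ∑ i, D.deg i = 4
  surj : Function.Surjective D.blk
  even : ∀ b, Even (∑ i with D.blk i = b, D.deg i)
  homA : ∀ i, (D.A i).IsHomogeneous (2 * D.deg i)
  homB : ∀ i, (D.B i).IsHomogeneous (3 * D.deg i)
  disc : ∀ i, 4 * D.A i ^ 3 + 27 * D.B i ^ 2 ≠ 0
  canonical : ∀ (l : MvPolynomial (Fin 2) k) (a b : Fin N → ℕ), l.IsHomogeneous 1 →
    (∀ i, l ^ a i ∣ D.A i ∧ l ^ b i ∣ D.B i) → 12 ≤ ∑ i, min (3 * a i) (2 * b i) → l = 0

/-- Coordinates `(s₀ : s₁)`, `(x_i : z_i)` and `y_b`. For a point of the variety `X` only the
coordinates with `i < X.N` and `b < X.r` are used. -/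
@[ext]
structure Pt (K : Type*) where
  /-- homogeneous coordinates on the line -/
  s : Fin 2 → K
  /-- the coordinates `x_i` -/
  x : ℕ → K
  /-- the coordinates `z_i` -/
  z : ℕ → K
  /-- the coordinates `y_b` -/
  y : ℕ → K

/-- The coordinates with `i < N` and `b < r`. -/
def Pt.crd {K : Type*} (N r : ℕ) (w : Pt K) : Crd N r K where
  s := w.s
  x i := w.x i
  z i := w.z i
  y b := w.y b

/-- The image of the coordinates under a map. -/
def Pt.map {K : Type*} (g : K → K) (w : Pt K) : Pt K where
  s := g ∘ w.s
  x := g ∘ w.x
  z := g ∘ w.z
  y := g ∘ w.y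

/-- Changes of signs of the coordinates `y_b`. -/
def Pt.sg {K : Type*} [Field K] (ε : ℕ → ℤˣ) (w : Pt K) : Pt K where
  s := w.s
  x := w.x
  z := w.z
  y b := (((ε b : ℤˣ) : ℤ) : K) * w.y b

/-- Coordinates for all of the `m` factors. -/
abbrev Pts (m : ℕ) (K : Type*) : Type _ := Fin m → Pt K

variable {k : Type u} [Field k] {m m' : ℕ}

/-- The dimension of `X`. -/
def CYF.dim (X : CYF k) : ℕ := X.N + 1

/-- `w` is a point of `X`. -/
def CYF.OnX (X : CYF k) {K : Type*} [Field K] [Algebra k K] (w : Pt K) : Prop :=
  X.D.OnX (w.crd X.N X.r)

/-- The point `P` of `X` with coordinates in the algebraic closure of `k(t)` specialises at the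
place `v` to the point `p`. -/
def CYF.IsValue (X : CYF k) (v : Place k (Om k)) (P : Pt (Om k)) (p : Pt k) : Prop :=
  X.D.IsValue v (P.crd X.N X.r) (p.crd X.N X.r)

/-- `x` is a point of the product of the varieties `X i`. -/
def OnP (X : Fin m → CYF k) {K : Type*} [Field K] [Algebra k K] (x : Pts m K) : Prop :=
  ∀ i, (X i).OnX (x i)

/-- The zero-cycles on `X 0 × ⋯ × X (m - 1)` (finite formal combinations of systems of homogeneous
coordinates) which are rationally equivalent to zero, with rational coefficients.

Let `P a`, `a < n`, be a finite family of points of the product with coordinates in the algebraic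
closure of `k(t)` which is stable under the Galois group of `k(t)`. This is the same as an effective
zero-cycle on the product over the field `k(t)`, or a family of effective zero-cycles parametrised
by the line, flat over the line. Its member at the point `t = c` is the sum of the specialisations
`p a` of the points of the family at any place `v` above `c`. The space of zero-cycles rationally
equivalent to zero is spanned by the differences between the members of such families at two
points `c` and `c'` of the line (Fulton, Intersection theory, Proposition 1.6). (The constant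
families show that it contains the differences of two systems of coordinates of the same point.) -/
def ratEqP (X : Fin m → CYF k) : Submodule ℚ (Pts m k →₀ ℚ) :=
  Submodule.span ℚ {z | ∃ (n : ℕ) (P : Fin n → Pts m (Om k)) (c c' : k) (v v' : Place k (Om k))
    (p p' : Fin n → Pts m k),
    (∀ a, OnP X (P a)) ∧
    (∀ g : Om k ≃ₐ[RatFunc k] Om k, ∃ e : Equiv.Perm (Fin n), ∀ a i, P (e a) i = (P a i).map g) ∧
    v.Vanishes (tt k - algebraMap k (Om k) c) ∧ v'.Vanishes (tt k - algebraMap k (Om k) c') ∧
    (∀ a, OnP X (p a) ∧ ∀ i, (X i).IsValue v (P a i) (p a i)) ∧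
    (∀ a, OnP X (p' a) ∧ ∀ i, (X i).IsValue v' (P a i) (p' a i)) ∧
    z = ∑ a, (Finsupp.single (p a) 1 - Finsupp.single (p' a) 1)}

/-- A morphism from `X 0 × ⋯ × X (m - 1)` to the variety `Y`: a constant (a point of `Y`), or the
factor with number `i` (if it is equal to `Y`) followed by changes of signs (`ε b` is the sign for
the coordinate `y_b`). -/
inductive Comp (X : Fin m → CYF k) (Y : CYF k) : Type u
  | const (w : Pt k) (hw : Y.OnX w) : Comp X Y
  | fac (i : Fin m) (h : X i = Y) (ε : ℕ → ℤˣ) : Comp X Y

/-- The morphisms between products with such components: projections, diagonals, permutations,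
constants, changes of signs, and everything composed from them. -/
abbrev Mor (X : Fin m → CYF k) (Y : Fin m' → CYF k) : Type u := ∀ j, Comp X (Y j)

variable {X : Fin m → CYF k} {Y : Fin m' → CYF k}

/-- The value of the component at a point. -/
def Comp.app {Z : CYF k} (f : Comp X Z) (x : Pts m k) : Pt k :=
  match f with
  | .const w _ => w
  | .fac i _ ε => (x i).sg ε

/-- The value of the morphism at a point. -/
def Mor.app (f : Mor X Y) (x : Pts m k) : Pts m' k := fun j => (f j).app x

/-- The push-forward of zero-cycles by a combination of morphisms (a correspondence). -/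
def pushM (γ : Mor X Y →₀ ℚ) : (Pts m k →₀ ℚ) →ₗ[ℚ] (Pts m' k →₀ ℚ) :=
  γ.sum fun f c => c • Finsupp.lmapDomain ℚ ℚ f.app

/-- The number of the factor of a non-constant component. -/
def Comp.src {Z : CYF k} : Comp X Z → Option (Fin m)
  | .const _ _ => none
  | .fac i _ _ => some i

/-- The sign by which a component acts on the holomorphic form of top degree
`ω = ds ∧ dx_0 ∧ ⋯ ∧ dx_(N - 1) / ∏ b, y_b`. -/
def Comp.sgn {Z : CYF k} : Comp X Z → ℤ
  | .const _ _ => 0
  | .fac _ _ ε => ∏ b ∈ Finset.range Z.r, ((ε b : ℤˣ) : ℤ)

/-- The sum of the dimensions of the factors `X i`, `i ∈ I`. -/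
def dimS (X : Fin m → CYF k) (I : Finset (Fin m)) : ℕ := ∑ i ∈ I, (X i).dim

open Classical in
/-- The sign `±` in `f^* (ω_(j₁) ∧ ⋯ ∧ ω_(j_l)) = ± (f^* ω)_(i₁) ∧ ⋯ ∧ (f^* ω)_(i_l)`, where
`j₁ < ⋯ < j_l` are the elements of `J` and `i₁ < ⋯ < i_l` are the numbers of the factors of the
components of `f` in `J`: the product of the signs `(-1) ^ (dim (Y j) * dim (Y j'))` for all pairs
`j < j'` for which the numbers of the factors are in the inverse order. -/
def koszul (f : Mor X Y) (J : Finset (Fin m')) : ℤ :=
  ∏ j ∈ J, ∏ j' ∈ J with j < j' ∧ ∃ i i', (f j).src = some i ∧ (f j').src = some i' ∧ i' < i,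
    (-1) ^ ((Y j).dim * (Y j').dim)

open Classical in
/-- Let `ω_i` be the holomorphic form of top degree on (a resolution of) the factor `X i`. The
holomorphic `ν`-forms on the product have the basis `ω_I`, the product of the `ω_i` for `i ∈ I` in
their order, where the dimensions of the factors with `i ∈ I` have the sum `ν`. This is the
coefficient of `ω_I` in the pull-back of `ω_J` by the morphism `f`: it is the product of the signs
of the components in `J` and of the sign `koszul f J`, if `f` induces a bijection from `J` to `I`,
and `0` otherwise (a constant component gives `0`, and so do two components with the same factor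
`i`, since `ω_i ∧ ω_i = 0`). -/
def pullCoef (f : Mor X Y) (I : Finset (Fin m)) (J : Finset (Fin m')) : ℤ :=
  if (∀ j ∈ J, ∃ i ∈ I, (f j).src = some i) ∧ ∀ i ∈ I, ∃! j, j ∈ J ∧ (f j).src = some i then
    koszul f J * ∏ j ∈ J, (f j).sgn else 0

/-- The correspondence `γ` acts as zero on the holomorphic `ν`-forms. -/
def KillsForms (γ : Mor X Y →₀ ℚ) (ν : ℕ) : Prop :=
  ∀ (I : Finset (Fin m)) (J : Finset (Fin m')), dimS X I = ν → dimS Y J = ν →
    (γ.sum fun f c => c * (pullCoef f I J : ℚ)) = 0

/-- The product of the differences `[x i] - [y i]` for `i ∈ I` and of the points `x i` for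
`i ∉ I`. -/
def cyc (I : Finset (Fin m)) (x y : Pts m k) : Pts m k →₀ ℚ :=
  ∑ S ∈ I.powerset, Finsupp.single (fun i => if i ∈ S then y i else x i) ((-1) ^ S.card)

/-- The filtration: the zero-cycles on the product which are generated by the products of zero-cycles
on the factors for which the factors of degree zero are on varieties with sum of the dimensions at
least `ν`. -/
def Fil (X : Fin m → CYF k) (ν : ℕ) : Submodule ℚ (Pts m k →₀ ℚ) :=
  Submodule.span ℚ {z | ∃ (I : Finset (Fin m)) (x y : Pts m k), OnP X x ∧ OnP X y ∧
    ν ≤ dimS X I ∧ z = cyc I x y} ⊔ ratEqP X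

end Pool.Agent.VFPP
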