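import Pool.Agent.VFPP.Defs

/-!
# Products of Calabi-Yau fibre products: auxiliary definitions
-/

set_option autoImplicit false

noncomputable section

namespace Pool.Agent.VFPP

open Pool.Agent.ZCyc Pool.Agent.VFP

universe u

variable {k : Type u} [Field k] {m m' : ℕ}

/-- zero-cycles on the product modulo rational equivalence -/
abbrev VP (X : Fin m → CYF k) : Type u := (Pts m k →₀ ℚ) ⧸ ratEqP X

/-- the class of a point -/
def clP (X : Fin m → CYF k) (x : Pts m k) : VP X := Submodule.Quotient.mk (Finsupp.single x 1)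

/-- the base point `o`, a point of all varieties `X` -/
def oo {K : Type*} [Field K] : Pt K where
  s := ![1, 0]
  x _ := 1
  z _ := 0
  y _ := 0

/-- the points `x i` for `i ∈ T` and `o` for `i ∉ T` -/
def res (T : Finset (Fin m)) (x : Pts m k) : Pts m k := fun i => if i ∈ T then x i else oo

/-- the class of the product of the differences `[x i] - [o]`, `i ∈ I`, and of the points `o` for
`i ∉ I` -/
def eP (X : Fin m → CYF k) (I : Finset (Fin m)) (x : Pts m k) : VP X :=
  ∑ S ∈ I.powerset, ((-1 : ℚ) ^ S.card) • clP X (res (I \ S) x)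

/-- the product of the signs `ε b`, `b < r` -/
def snP (r : ℕ) (ε : ℕ → ℤˣ) : ℤ := ∏ b ∈ Finset.range r, ((ε b : ℤˣ) : ℤ)

/-- coordinates with `0` in the additional places -/
def pt {K : Type*} [Field K] {N r : ℕ} (w : Crd N r K) : Pt K where
  s := w.s
  x i := if h : i < N then w.x ⟨i, h⟩ else 0
  z i := if h : i < N then w.z ⟨i, h⟩ else 0
  y b := if h : b < r then w.y ⟨b, h⟩ else 0

/-- the value of a component without the signs -/
def Comp.base {X : Fin m → CYF k} {Z : CYF k} (f : Comp X Z) (x : Pts m k) : Pt k :=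
  match f with
  | .const w _ => w
  | .fac i _ _ => x i

/-- the value of a morphism without the signs -/
def Mor.base {X : Fin m → CYF k} {Y : Fin m' → CYF k} (f : Mor X Y) (x : Pts m k) : Pts m' k :=
  fun j => (f j).base x

/-- the span of the classes `eP I x` with `ν ≤ dimS X I` -/
def FV (X : Fin m → CYF k) (ν : ℕ) : Submodule ℚ (VP X) :=
  Submodule.span ℚ {e | ∃ (I : Finset (Fin m)) (x : Pts m k), OnP X x ∧ ν ≤ dimS X I ∧
    e = eP X I x}

/-- `f` induces a bijection from `K` to `I` -/
def Bij {X : Fin m → CYF k} {Y : Fin m' → CYF k} (f : Mor X Y) (I : Finset (Fin m))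
    (K : Finset (Fin m')) : Prop :=
  (∀ j ∈ K, ∃ i ∈ I, (f j).src = some i) ∧ ∀ i ∈ I, ∃! j, j ∈ K ∧ (f j).src = some i

open Classical in
/-- the product of the signs `(-1) ^ (n j * n j')` for the inversions `j < j'`, `s j' < s j` of `s`
in `J` -/
def kz {l : ℕ} (n s : Fin l → ℕ) (J : Finset (Fin l)) : ℤ :=
  ∏ j ∈ J, ∏ j' ∈ J with j < j' ∧ s j' < s j, (-1) ^ (n j * n j')

end Pool.Agent.VFPP
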