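import Pool.Agent.VFPP.Ins

/-!
# Products of Calabi-Yau fibre products: the classes eP
-/

set_option autoImplicit false

noncomputable section

namespace Pool.Agent.VFPP

open Pool.Agent.ZCyc Pool.Agent.VFP

universe u

variable {k : Type u} [Field k] [IsAlgClosed k] [CharZero k] {m : ℕ} {X : Fin m → CYF k}

omit [IsAlgClosed k] [CharZero k] in
private lemma res_onP {T : Finset (Fin m)} {x : Pts m k} (hx : OnP X x) :
    OnP X (res T x) := by
  intro i
  unfold res
  split_ifs
  · exact hx i
  · exact onX_oo _

omit [IsAlgClosed k] [CharZero k] in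
theorem eP_congr (I : Finset (Fin m)) {x y : Pts m k} (h : ∀ i ∈ I, x i = y i) :
    eP X I x = eP X I y := by
  unfold eP
  refine Finset.sum_congr rfl fun S _ => ?_
  have : res (I \ S) x = res (I \ S) y := by
    funext i
    unfold res
    by_cases h1 : i ∈ I \ S
    · simp only [h1, if_true, h i (Finset.mem_sdiff.1 h1).1]
    · simp only [h1, if_false]
  rw [this]

omit [IsAlgClosed k] [CharZero k] in
private lemma sum_split {V : Type*} [AddCommGroup V] [Module ℚ V] {I : Finset (Fin m)}
    {i : Fin m} (hi : i ∈ I) (f : Finset (Fin m) → V) :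
    ∑ S ∈ I.powerset, f S = ∑ S ∈ (I.erase i).powerset, (f S + f (insert i S)) := by
  conv_lhs => rw [← Finset.insert_erase hi]
  rw [Finset.sum_powerset_insert (Finset.notMem_erase i I), Finset.sum_add_distrib]

omit [IsAlgClosed k] [CharZero k] in
private lemma res_insert {I S : Finset (Fin m)} (x : Pts m k) (i : Fin m) :
    res (I \ insert i S) x = Function.update (res (I \ S) x) i oo := by
  funext l
  by_cases hl : l = i
  · subst hl
    simp [res]
  · simp [res, hl, Function.update_of_ne hl]

omit [IsAlgClosed k] [CharZero k] in
/-- pair `S` with `insert i S` -/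
theorem eP_oo {I : Finset (Fin m)} {x : Pts m k} {i : Fin m} (hi : i ∈ I) (h : x i = oo) :
    eP X I x = 0 := by
  unfold eP
  rw [sum_split hi]
  refine Finset.sum_eq_zero fun S hS => ?_
  have hS' := Finset.mem_powerset.mp hS
  have hiS : i ∉ S := fun h => Finset.notMem_erase i I (hS' h)
  have h1 : res (I \ insert i S) x = res (I \ S) x := by
    rw [res_insert]
    have h2 : res (I \ S) x i = oo := by
      unfold res
      split_ifs
      · exact h
      · rfl
    rw [← h2]
    exact Function.update_eq_self i _
  rw [h1, Finset.card_insert_of_notMem hiS, pow_succ]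
  module

/-- the mixed vector: `J` is the set of the factors which have been treated -/
private def pem (J T : Finset (Fin m)) (x : Pts m k) : Pts m k :=
  fun i => if i ∈ T then x i else if i ∈ J then oo else x i

omit [IsAlgClosed k] [CharZero k] in
private lemma clP_mixed (x : Pts m k) (J : Finset (Fin m)) :
    clP X x = ∑ I ∈ J.powerset,
      ∑ S ∈ I.powerset, ((-1 : ℚ) ^ S.card) • clP X (pem J (I \ S) x) := by
  induction J using Finset.induction_on with
  | empty =>
    have e : pem ∅ ∅ x = x := by
      funext l
      simp [pem]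
    simp [e]
  | insert j J hj ih =>
    rw [Finset.sum_powerset_insert hj, ← Finset.sum_add_distrib, ih]
    refine Finset.sum_congr rfl fun I hI => ?_
    have hI' := Finset.mem_powerset.mp hI
    have hjI : j ∉ I := fun h => hj (hI' h)
    rw [Finset.sum_powerset_insert hjI, ← Finset.sum_add_distrib, ← Finset.sum_add_distrib]
    refine Finset.sum_congr rfl fun S hS => ?_
    have hS' := Finset.mem_powerset.mp hS
    have hjS : j ∉ S := fun h => hjI (hS' h)
    have e1 : pem (insert j J) (I \ S) x = Function.update (pem J (I \ S) x) j oo := by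
      funext l
      by_cases hl : l = j
      · subst hl
        simp [pem, hjI]
      · simp [pem, hl, Function.update_of_ne hl]
    have e2 : pem (insert j J) (insert j I \ S) x = pem J (I \ S) x := by
      funext l
      by_cases hl : l = j
      · subst hl
        simp [pem, hjS, hjI, hj]
      · simp [pem, hl]
    have e3 : pem (insert j J) (insert j I \ insert j S) x =
        Function.update (pem J (I \ S) x) j oo := by
      funext l
      by_cases hl : l = j
      · subst hl
        simp [pem]
      · simp [pem, hl, Function.update_of_ne hl]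
    rw [e1, e2, e3, Finset.card_insert_of_notMem hjS, pow_succ]
    module

omit [IsAlgClosed k] [CharZero k] in
/-- `[x i] = [o] + ([x i] - [o])` in every factor -/
theorem clP_eq_sum (x : Pts m k) : clP X x = ∑ I : Finset (Fin m), eP X I x := by
  have h := clP_mixed (X := X) x Finset.univ
  rw [h, Finset.powerset_univ]
  refine Finset.sum_congr rfl fun I _ => ?_
  unfold eP
  refine Finset.sum_congr rfl fun S _ => ?_
  congr 2
  funext l
  simp [pem, res]

/-- from `clP_sg`, pairing `S` with `insert i S` -/
theorem eP_sg {I : Finset (Fin m)} {x : Pts m k} (hx : OnP X x) {i : Fin m} (hi : i ∈ I)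
    (ε : ℕ → ℤˣ) : eP X I (Function.update x i ((x i).sg ε)) =
      ((snP (X i).r ε : ℤ) : ℚ) • eP X I x := by
  unfold eP
  rw [sum_split hi, sum_split hi, Finset.smul_sum]
  refine Finset.sum_congr rfl fun S hS => ?_
  have hS' := Finset.mem_powerset.mp hS
  have hiS : i ∉ S := fun h => Finset.notMem_erase i I (hS' h)
  set y := res (I \ S) x with hy
  have hyP : OnP X y := res_onP hx
  have hyi : y i = x i := by simp [hy, res, hi, hiS]
  have e1 : res (I \ S) (Function.update x i ((x i).sg ε)) =
      Function.update y i ((y i).sg ε) := by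
    funext l
    by_cases hl : l = i
    · subst hl
      simp [hyi, res, hi, hiS]
    · simp [hy, res, Function.update_of_ne hl]
  have e2 : Function.update (Function.update y i ((y i).sg ε)) i oo =
      Function.update y i oo := Function.update_idem _ _ _
  have h := clP_sg hyP i ε
  rw [res_insert, res_insert, e1, e2, ← hy, Finset.card_insert_of_notMem hiS, pow_succ]
  have h1 : ((-1 : ℚ) ^ S.card) • clP X (Function.update y i ((y i).sg ε)) +
      ((-1 : ℚ) ^ S.card * -1) • clP X (Function.update y i oo) =
      ((-1 : ℚ) ^ S.card) • (clP X (Function.update y i ((y i).sg ε)) -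
        clP X (Function.update y i oo)) := by module
  have h2 : ((-1 : ℚ) ^ S.card) • clP X y +
      ((-1 : ℚ) ^ S.card * -1) • clP X (Function.update y i oo) =
      ((-1 : ℚ) ^ S.card) • (clP X y - clP X (Function.update y i oo)) := by module
  rw [h1, h2, h, smul_comm]

/-- exchange of two factors, from `dd_swap` -/
theorem eP_swap {I : Finset (Fin m)} {x : Pts m k} (hx : OnP X x) {i j : Fin m} (hij : i ≠ j)
    (hi : i ∈ I) (hj : j ∈ I) (h : X i = X j) :
    eP X I (x ∘ Equiv.swap i j) = ((-1 : ℚ) ^ (X i).dim) • eP X I x := by
  have hj' : j ∈ I.erase i := Finset.mem_erase.mpr ⟨fun e => hij e.symm, hj⟩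
  unfold eP
  rw [sum_split hi, sum_split hi, sum_split hj', sum_split hj', Finset.smul_sum]
  refine Finset.sum_congr rfl fun S hS => ?_
  have hS' := Finset.mem_powerset.mp hS
  have hjS : j ∉ S := fun h => Finset.notMem_erase j _ (hS' h)
  have hiS : i ∉ S := fun h => Finset.notMem_erase i I (Finset.mem_of_mem_erase (hS' h))
  have hiS2 : i ∉ insert j S := by simp [hij, hiS]
  set y := res (I \ S) x with hy
  have hyP : OnP X y := res_onP hx
  have b0 : res (I \ S) (x ∘ Equiv.swap i j) = y ∘ Equiv.swap i j := by
    funext l
    by_cases hl : l = i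
    · subst hl; simp [hy, res, hiS, hi, hjS, hj]
    · by_cases hl2 : l = j
      · subst hl2; simp [hy, res, hjS, hj, hiS, hi]
      · simp [hy, res, Equiv.swap_apply_of_ne_of_ne hl hl2]
  have hdd := dd_swap hyP hij h
  unfold dd at hdd
  rw [Finset.card_insert_of_notMem hjS, Finset.card_insert_of_notMem hiS,
    Finset.card_insert_of_notMem hiS2, Finset.card_insert_of_notMem hjS,
    pow_succ _ (S.card + 1), pow_succ]
  have c1 : insert i (insert j S) = insert j (insert i S) := Finset.insert_comm _ _ _
  rw [c1]
  simp only [res_insert, b0, ← hy]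
  have e1 : ∀ (c : ℚ) (p q r s : VP X),
      c • p + (c * -1) • q + ((c * -1) • r + (c * -1 * -1) • s) = c • (p - q - r + s) := by
    intro c p q r s; module
  rw [e1, e1, hdd, smul_comm]

end Pool.Agent.VFPP
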