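import Pool.Agent.VFPP.Defs2
import Pool.Agent.VFP.Sign
import Pool.Agent.VFP.Util

/-!
# Products of Calabi-Yau fibre products: general facts
-/

set_option autoImplicit false

noncomputable section

namespace Pool.Agent.VFPP

open Pool.Agent.ZCyc Pool.Agent.VFP

universe u

variable {k : Type u} [Field k] {m m' : ℕ} {X : Fin m → CYF k} {Y : Fin m' → CYF k}

theorem crd_pt {K : Type*} [Field K] {N r : ℕ} (w : Crd N r K) : (pt w).crd N r = w := by
  refine Crd.ext rfl ?_ ?_ ?_
  · funext i
    simp [pt, Pt.crd]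
  · funext i
    simp [pt, Pt.crd]
  · funext b
    simp [pt, Pt.crd]

theorem crd_sg {K : Type*} [Field K] (N r : ℕ) (ε : ℕ → ℤˣ) (w : Pt K) :
    (w.sg ε).crd N r = VFP.sg (fun b : Fin r => ε b) (w.crd N r) := rfl

theorem oo_sg {K : Type*} [Field K] (ε : ℕ → ℤˣ) : (oo : Pt K).sg ε = oo := by
  refine Pt.ext rfl rfl rfl ?_
  funext b
  exact mul_zero _

theorem snP_eq (r : ℕ) (ε : ℕ → ℤˣ) : ((snP r ε : ℤ) : ℚ) = sn fun b : Fin r => ε b := by
  unfold snP sn
  rw [Finset.prod_range, Int.cast_prod]

theorem snP_or (r : ℕ) (ε : ℕ → ℤˣ) : snP r ε = 1 ∨ snP r ε = -1 := by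
  have h : snP r ε = ((∏ b ∈ Finset.range r, ε b : ℤˣ) : ℤ) := by
    unfold snP
    rw [Units.coe_prod]
  rw [h]
  rcases Int.units_eq_one_or (∏ b ∈ Finset.range r, ε b) with h1 | h1
  · left
    rw [h1]
    rfl
  · right
    rw [h1]
    rfl

theorem onX_sg (Z : CYF k) {K : Type*} [Field K] [Algebra k K] {w : Pt K} (h : Z.OnX w)
    (ε : ℕ → ℤˣ) : Z.OnX (w.sg ε) := by
  unfold CYF.OnX
  rw [crd_sg]
  exact VFP.onX_sg _ h

theorem onX_oo (Z : CYF k) : Z.OnX (oo : Pt k) := by
  refine ⟨?_, fun i => Or.inl one_ne_zero, fun b => ?_⟩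
  · intro h0
    have h1 := congrFun h0 0
    exact one_ne_zero h1
  · obtain ⟨i, hi⟩ := Z.surj b
    have h1 : Z.D.fac ((oo : Pt k).crd Z.N Z.r) i = 0 := by
      unfold Dat.fac
      exact zero_mul _
    rw [Finset.prod_eq_zero (Finset.mem_filter.2 ⟨Finset.mem_univ i, hi⟩) h1]
    exact zero_pow two_ne_zero

theorem onP_res {x : Pts m k} (hx : OnP X x) (T : Finset (Fin m)) : OnP X (res T x) := by
  intro i
  unfold res
  split_ifs
  · exact hx i
  · exact onX_oo _

theorem Mor.onP (f : Mor X Y) {x : Pts m k} (hx : OnP X x) : OnP Y (f.app x) := by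
  intro j
  unfold Mor.app
  cases hf : f j with
  | const w hw => exact hw
  | fac i h ε =>
    have h1 := onX_sg (X i) (hx i) ε
    rw [h] at h1
    exact h1

theorem Mor.onP_base (f : Mor X Y) {x : Pts m k} (hx : OnP X x) : OnP Y (f.base x) := by
  intro j
  unfold Mor.base
  cases hf : f j with
  | const w hw => exact hw
  | fac i h ε =>
    have h1 := hx i
    rw [h] at h1
    exact h1

/-- cycles which are rationally equivalent to zero are supported on the product and have degree
zero -/
theorem ratEqP_supp {z : Pts m k →₀ ℚ} (hz : z ∈ ratEqP X) :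
    (∀ p ∈ z.support, OnP X p) ∧ (z.sum fun _ c => c) = 0 := by
  classical
  let N : Submodule ℚ (Pts m k →₀ ℚ) :=
    { carrier := {z | (∀ p ∈ z.support, OnP X p) ∧ (z.sum fun _ c => c) = 0}
      zero_mem' := by simp
      add_mem' := by
        rintro z z' ⟨h1, h2⟩ ⟨h3, h4⟩
        refine ⟨fun p hp => ?_, ?_⟩
        · rcases Finset.mem_union.1 (Finsupp.support_add hp) with h | h
          · exact h1 p h
          · exact h3 p h
        · rw [Finsupp.sum_add_index' (fun _ => rfl) (fun _ _ _ => rfl), h2, h4, add_zero]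
      smul_mem' := by
        rintro c z ⟨h1, h2⟩
        refine ⟨fun p hp => h1 p (Finsupp.support_smul hp), ?_⟩
        rw [Finsupp.sum_smul_index' (fun _ => rfl)]
        simp only [smul_eq_mul]
        rw [← Finsupp.mul_sum, h2, mul_zero] }
  have hsingle : ∀ p q : Pts m k, OnP X p → OnP X q →
      (Finsupp.single p (1 : ℚ) - Finsupp.single q 1) ∈ N := by
    intro p q hp hq
    refine ⟨fun r hr => ?_, ?_⟩
    · rcases Finset.mem_union.1 (Finsupp.support_sub hr) with h | h
      · rw [Finset.mem_singleton.1 (Finsupp.support_single_subset h)]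
        exact hp
      · rw [Finset.mem_singleton.1 (Finsupp.support_single_subset h)]
        exact hq
    · rw [Finsupp.sum_sub_index (fun _ _ _ => rfl), Finsupp.sum_single_index rfl,
        Finsupp.sum_single_index rfl, sub_self]
  have key : ratEqP X ≤ N := by
    unfold ratEqP
    rw [Submodule.span_le]
    rintro z ⟨n, P, c, c', v, v', p, p', hOn, hG, hv, hv', hp, hp', rfl⟩
    exact N.sum_mem fun a _ => hsingle _ _ (hp a).1 (hp' a).1
  exact key hz

/-- the image of a point under `k → K` -/
private def cstP (K : Type*) [Field K] [Algebra k K] (w : Pt k) : Pt K where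
  s j := algebraMap k K (w.s j)
  x i := algebraMap k K (w.x i)
  z i := algebraMap k K (w.z i)
  y b := algebraMap k K (w.y b)

private theorem aeval_cst {K : Type*} [Field K] [Algebra k K] (s : Fin 2 → k)
    (P : MvPolynomial (Fin 2) k) :
    MvPolynomial.aeval (fun j => algebraMap k K (s j)) P =
      algebraMap k K (MvPolynomial.aeval s P) := by
  rw [← MvPolynomial.aeval_algebraMap_apply]
  rfl

private theorem fac_cst {N r : ℕ} {D : Dat k N r} {K : Type*} [Field K] [Algebra k K] (w : Pt k)
    (i : Fin N) : D.fac ((cstP K w).crd N r) i = algebraMap k K (D.fac (w.crd N r) i) := by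
  unfold Dat.fac cstP Pt.crd
  simp only [aeval_cst, map_add, map_mul, map_pow]

private theorem onX_cst {Z : CYF k} {K : Type*} [Field K] [Algebra k K] {w : Pt k}
    (h : Z.OnX w) : Z.OnX (cstP K w) := by
  refine ⟨?_, ?_, ?_⟩
  · intro h0
    apply h.1
    funext j
    have h1 : algebraMap k K (w.s j) = 0 := congrFun h0 j
    exact (map_eq_zero (algebraMap k K)).1 h1
  · intro i
    rcases h.2.1 i with h1 | h1
    · left
      exact (map_ne_zero (algebraMap k K)).2 h1
    · right
      exact (map_ne_zero (algebraMap k K)).2 h1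
  · intro b
    have h1 := congrArg (algebraMap k K) (h.2.2 b)
    rw [map_pow, map_prod] at h1
    simp only [fac_cst]
    exact h1

private theorem isValue_cst (Z : CYF k) (v : Place k (Om k)) (w : Pt k) {w' : Pt k}
    (h : w.crd Z.N Z.r = w'.crd Z.N Z.r) : Z.IsValue v (cstP (Om k) w) w' := by
  unfold CYF.IsValue
  rw [← h]
  refine ⟨1, fun _ => 1, ?_, ?_, ?_, ?_⟩
  · intro j
    have e : (Z.D.scale 1 (fun _ => 1) ((cstP (Om k) w).crd Z.N Z.r)).s j =
        algebraMap k (Om k) ((w.crd Z.N Z.r).s j) := by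
      simp [Dat.scale, cstP, Pt.crd]
    rw [e]
    exact Place.at_const _
  · intro i
    have e : (Z.D.scale 1 (fun _ => 1) ((cstP (Om k) w).crd Z.N Z.r)).x i =
        algebraMap k (Om k) ((w.crd Z.N Z.r).x i) := by
      simp [Dat.scale, cstP, Pt.crd]
    rw [e]
    exact Place.at_const _
  · intro i
    have e : (Z.D.scale 1 (fun _ => 1) ((cstP (Om k) w).crd Z.N Z.r)).z i =
        algebraMap k (Om k) ((w.crd Z.N Z.r).z i) := by
      simp [Dat.scale, cstP, Pt.crd]
    rw [e]
    exact Place.at_const _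
  · intro b
    have e : (Z.D.scale 1 (fun _ => 1) ((cstP (Om k) w).crd Z.N Z.r)).y b =
        algebraMap k (Om k) ((w.crd Z.N Z.r).y b) := by
      simp [Dat.scale, cstP, Pt.crd]
    rw [e]
    exact Place.at_const _

private theorem map_cst (g : Om k ≃ₐ[RatFunc k] Om k) (w : Pt k) :
    (cstP (Om k) w).map g = cstP (Om k) w := by
  have h : ∀ c : k, g (algebraMap k (Om k) c) = algebraMap k (Om k) c := by
    intro c
    rw [IsScalarTower.algebraMap_apply k (RatFunc k) (Om k), g.commutes]
  refine Pt.ext ?_ ?_ ?_ ?_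
  · funext j
    exact h _
  · funext j
    exact h _
  · funext j
    exact h _
  · funext j
    exact h _

/-- the component over a field extension -/
private def appK {K : Type*} [Field K] [Algebra k K] {Z : CYF k} (f : Comp X Z)
    (P : Pts m K) : Pt K :=
  match f with
  | .const w _ => cstP K w
  | .fac i _ ε => (P i).sg ε

private theorem onX_appK {K : Type*} [Field K] [Algebra k K] {Z : CYF k} (f : Comp X Z)
    {P : Pts m K} (hP : OnP X P) : Z.OnX (appK f P) := by
  cases f with
  | const w h => exact onX_cst h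
  | fac i h ε =>
    have h1 := onX_sg (X i) (hP i) ε
    rw [h] at h1
    exact h1

private theorem isValue_app {Z : CYF k} (f : Comp X Z) {v : Place k (Om k)}
    {P : Pts m (Om k)} {p : Pts m k} (h : ∀ i, (X i).IsValue v (P i) (p i)) :
    Z.IsValue v (appK f P) (f.app p) := by
  cases f with
  | const w hw => exact isValue_cst Z v w rfl
  | fac i hi ε =>
    have h1 : (X i).IsValue v ((P i).sg ε) ((p i).sg ε) := by
      unfold CYF.IsValue
      rw [crd_sg, crd_sg]
      exact isValue_sg _ (h i)
    rw [hi] at h1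
    exact h1

private theorem gal_app {Z : CYF k} (f : Comp X Z) (g : Om k ≃ₐ[RatFunc k] Om k)
    (P : Pts m (Om k)) : appK f (fun i => (P i).map g) = (appK f P).map g := by
  cases f with
  | const w hw => exact (map_cst g w).symm
  | fac i hi ε =>
    refine Pt.ext rfl rfl rfl ?_
    funext b
    change (((ε b : ℤˣ) : ℤ) : Om k) * g ((P i).y b) = g ((((ε b : ℤˣ) : ℤ) : Om k) * (P i).y b)
    rw [map_mul, map_intCast]

/-- push-forward by a morphism (the family `P a` goes to the family with the components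
`algebraMap ∘ w` or `(P a i).sg ε`) -/
theorem mapDomain_ratEqP (f : Mor X Y) {z : Pts m k →₀ ℚ} (hz : z ∈ ratEqP X) :
    z.mapDomain f.app ∈ ratEqP Y := by
  have key : ratEqP X ≤ (ratEqP Y).comap (Finsupp.lmapDomain ℚ ℚ f.app) := by
    conv_lhs => unfold ratEqP
    rw [Submodule.span_le]
    rintro z ⟨n, P, c, c', v, v', p, p', hOn, hG, hv, hv', hp, hp', rfl⟩
    refine Submodule.subset_span ⟨n, fun a j => appK (f j) (P a), c, c', v, v',
      fun a => f.app (p a), fun a => f.app (p' a), fun a j => onX_appK (f j) (hOn a),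
      fun g => ?_, hv, hv', fun a => ⟨f.onP (hp a).1, fun j => isValue_app (f j) (hp a).2⟩,
      fun a => ⟨f.onP (hp' a).1, fun j => isValue_app (f j) (hp' a).2⟩, ?_⟩
    · obtain ⟨r, hr⟩ := hG g
      refine ⟨r, fun a j => ?_⟩
      have h1 : P (r a) = fun i => (P a i).map g := funext fun i => hr a i
      rw [← gal_app, ← h1]
    · rw [map_sum]
      refine Finset.sum_congr rfl fun a _ => ?_
      rw [map_sub, Finsupp.lmapDomain_apply, Finsupp.lmapDomain_apply, Finsupp.mapDomain_single,
        Finsupp.mapDomain_single]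
  exact key hz

/-- only the coordinates with `i < N`, `b < r` matter (constant family) -/
theorem clP_crd {x y : Pts m k} (hx : OnP X x)
    (h : ∀ i, (x i).crd (X i).N (X i).r = (y i).crd (X i).N (X i).r) : clP X x = clP X y := by
  unfold clP
  rw [Submodule.Quotient.eq]
  obtain ⟨v, hv⟩ := exists_place (tt_transc (k := k)) (0 : k)
  have hy : OnP X y := by
    intro i
    have h1 := hx i
    unfold CYF.OnX at h1 ⊢
    rw [← h i]
    exact h1
  refine Submodule.subset_span ⟨1, fun _ i => cstP (Om k) (x i), 0, 0, v, v, fun _ => x,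
    fun _ => y, fun _ i => onX_cst (hx i), fun g => ⟨Equiv.refl _, fun _ i => ?_⟩, hv, hv,
    fun _ => ⟨hx, fun i => isValue_cst (X i) v (x i) rfl⟩,
    fun _ => ⟨hy, fun i => isValue_cst (X i) v (x i) (h i)⟩, ?_⟩
  · exact (map_cst g (x i)).symm
  · simp

end Pool.Agent.VFPP
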