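import Pool.Agent.VFPP.E

/-!
# Products of Calabi-Yau fibre products: push-forward of the classes eP
-/

set_option autoImplicit false
set_option linter.unusedSectionVars false

noncomputable section

namespace Pool.Agent.VFPP

open Pool.Agent.ZCyc Pool.Agent.VFP

universe u

variable {k : Type u} [Field k] [IsAlgClosed k] [CharZero k] {m m' : ℕ} {X : Fin m → CYF k}
  {Y : Fin m' → CYF k}

/-- the push-forward of classes by a morphism -/
def pushV (f : Mor X Y) : VP X →ₗ[ℚ] VP Y :=
  (ratEqP X).mapQ (ratEqP Y) (Finsupp.lmapDomain ℚ ℚ f.app) fun _ hz => mapDomain_ratEqP f hz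

private theorem pp_clP (f : Mor X Y) (y : Pts m k) : pushV f (clP X y) = clP Y (f.app y) := by
  have h : pushV f (clP X y) =
      Submodule.Quotient.mk (Finsupp.mapDomain f.app (Finsupp.single y (1 : ℚ))) := rfl
  rw [h, Finsupp.mapDomain_single]
  rfl

private theorem pp_src_dim {Z : CYF k} (g : Comp X Z) {i : Fin m} (h : g.src = some i) :
    Z.dim = (X i).dim := by
  cases g with
  | const w hw => cases h
  | fac i' h' ε =>
    have hii : i' = i := by
      simpa [Comp.src] using h
    subst hii
    exact congrArg CYF.dim h'.symm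

private theorem pp_app_oo {Z : CYF k} (g : Comp X Z) {i : Fin m} (h : g.src = some i)
    {x : Pts m k} (hx : x i = oo) : g.app x = oo := by
  cases g with
  | const w hw => cases h
  | fac i' h' ε =>
    have hii : i' = i := by
      simpa [Comp.src] using h
    subst hii
    show (x i').sg ε = oo
    rw [hx, oo_sg]

private theorem pp_app_congr {Z : CYF k} (g : Comp X Z) {x y : Pts m k}
    (h : ∀ i, g.src = some i → x i = y i) : g.app x = g.app y := by
  cases g with
  | const w hw => rfl
  | fac i h' ε =>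
    show (x i).sg ε = (y i).sg ε
    rw [h i rfl]

private theorem pp_app_sg {Z : CYF k} (g : Comp X Z) {i : Fin m} (h : g.src = some i) :
    ∃ ε : ℕ → ℤˣ, (∀ x : Pts m k, g.app x = (g.base x).sg ε) ∧ g.sgn = snP Z.r ε := by
  cases g with
  | const w hw => cases h
  | fac i' h' ε => exact ⟨ε, fun _ => rfl, rfl⟩

/-- change of signs -/
private theorem pp_sign (f : Mor X Y) {K : Finset (Fin m')} {x : Pts m k} (hx : OnP X x)
    (hK : ∀ j ∈ K, ∃ i, (f j).src = some i) :
    eP Y K (f.app x) = ((∏ j ∈ K, (f j).sgn : ℤ) : ℚ) • eP Y K (f.base x) := by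
  classical
  have key : ∀ T : Finset (Fin m'), T ⊆ K →
      eP Y K (fun j => if j ∈ T then (f j).app x else (f j).base x) =
        ((∏ j ∈ T, (f j).sgn : ℤ) : ℚ) • eP Y K (f.base x) := by
    intro T
    induction T using Finset.induction_on with
    | empty =>
      intro _
      simp only [Finset.notMem_empty, if_false, Finset.prod_empty, Int.cast_one, one_smul]
      rfl
    | insert j T hj ih =>
      intro hT
      have hjK : j ∈ K := hT (Finset.mem_insert_self _ _)
      have hTK : T ⊆ K := fun a ha => hT (Finset.mem_insert_of_mem ha)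
      obtain ⟨i, hi⟩ := hK j hjK
      obtain ⟨ε, h1, h2⟩ := pp_app_sg (f j) hi
      have hon : OnP Y (fun j => if j ∈ T then (f j).app x else (f j).base x) := by
        intro l
        show (Y l).OnX (if l ∈ T then (f l).app x else (f l).base x)
        split_ifs
        · exact f.onP hx l
        · exact f.onP_base hx l
      have e : (fun l => if l ∈ insert j T then (f l).app x else (f l).base x) =
          Function.update (fun l => if l ∈ T then (f l).app x else (f l).base x) j
            (((fun l => if l ∈ T then (f l).app x else (f l).base x) j).sg ε) := by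
        funext l
        by_cases hl : l = j
        · subst hl
          simp [hj, h1]
        · rw [Function.update_of_ne hl]
          simp [hl]
      rw [e, Finset.prod_insert hj, eP_sg hon hjK ε, ih hTK, smul_smul, h2]
      push_cast
      rfl
  rw [← key K (Finset.Subset.refl _)]
  refine eP_congr K fun j hj => ?_
  rw [if_pos hj]
  rfl

/-- the sum over the subsets of `I` -/
private def pp_sum (f : Mor X Y) (I : Finset (Fin m)) (x : Pts m k) (K : Finset (Fin m')) :
    VP Y := ∑ S ∈ I.powerset, ((-1 : ℚ) ^ S.card) • eP Y K (f.app (res (I \ S) x))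

private theorem pp_expand (f : Mor X Y) (I : Finset (Fin m)) (x : Pts m k) :
    pushV f (eP X I x) = ∑ K : Finset (Fin m'), pp_sum f I x K := by
  have h2 : eP X I x = ∑ S ∈ I.powerset, ((-1 : ℚ) ^ S.card) • clP X (res (I \ S) x) := rfl
  rw [h2, map_sum]
  have h3 : ∀ S ∈ I.powerset, pushV f (((-1 : ℚ) ^ S.card) • clP X (res (I \ S) x)) =
      ∑ K : Finset (Fin m'), (((-1 : ℚ) ^ S.card) • eP Y K (f.app (res (I \ S) x))) := by
    intro S _
    rw [map_smul, pp_clP, clP_eq_sum, Finset.smul_sum]
  rw [Finset.sum_congr rfl h3, Finset.sum_comm]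
  rfl

/-- a component in `K` comes from a factor outside of `I` -/
private theorem pp_out (f : Mor X Y) {I : Finset (Fin m)} (x : Pts m k) {K : Finset (Fin m')}
    {j : Fin m'} (hj : j ∈ K) {i : Fin m} (hi : (f j).src = some i) (hI : i ∉ I) :
    pp_sum f I x K = 0 := by
  refine Finset.sum_eq_zero fun S _ => ?_
  rw [eP_oo (X := Y) hj, smul_zero]
  refine pp_app_oo (f j) hi ?_
  unfold res
  rw [if_neg]
  intro h
  exact hI (Finset.mem_sdiff.1 h).1

/-- no component in `K` comes from the factor `i` -/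
private theorem pp_miss (f : Mor X Y) {I : Finset (Fin m)} (x : Pts m k) {K : Finset (Fin m')}
    {i : Fin m} (hi : i ∈ I) (h : ∀ j ∈ K, (f j).src ≠ some i) : pp_sum f I x K = 0 := by
  classical
  unfold pp_sum
  have hins : I = insert i (I.erase i) := (Finset.insert_erase hi).symm
  have hps : I.powerset = (insert i (I.erase i)).powerset := by rw [← hins]
  rw [hps, Finset.sum_powerset_insert (Finset.notMem_erase i I), ← Finset.sum_add_distrib]
  refine Finset.sum_eq_zero fun S hS => ?_
  rw [Finset.mem_powerset] at hS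
  have hiS : i ∉ S := fun h1 => Finset.notMem_erase i I (hS h1)
  have e : eP Y K (f.app (res (I \ insert i S) x)) = eP Y K (f.app (res (I \ S) x)) := by
    refine eP_congr K fun j hj => ?_
    refine pp_app_congr (f j) fun i' hi' => ?_
    have hne : i' ≠ i := fun h1 => h j hj (by rw [← h1]; exact hi')
    unfold res
    have hiff : i' ∈ I \ insert i S ↔ i' ∈ I \ S := by
      simp [Finset.mem_sdiff, hne]
    simp only [hiff]
  rw [e, Finset.card_insert_of_notMem hiS, pow_succ, mul_neg_one, neg_smul, add_neg_cancel]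

/-- the remaining case -/
private theorem pp_main (f : Mor X Y) {I : Finset (Fin m)} (x : Pts m k) {K : Finset (Fin m')}
    (h1 : ∀ j ∈ K, ∀ i, (f j).src = some i → i ∈ I) (h2 : ∀ i ∈ I, ∃ j ∈ K, (f j).src = some i) :
    pp_sum f I x K = eP Y K (f.app x) := by
  classical
  unfold pp_sum
  rw [Finset.sum_eq_single (∅ : Finset (Fin m))]
  · rw [Finset.card_empty, pow_zero, one_smul]
    refine eP_congr K fun j hj => ?_
    refine pp_app_congr (f j) fun i hi => ?_
    unfold res
    rw [if_pos]
    rw [Finset.sdiff_empty]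
    exact h1 j hj i hi
  · intro S hS hne
    rw [Finset.mem_powerset] at hS
    obtain ⟨i, hi⟩ := Finset.nonempty_iff_ne_empty.2 hne
    obtain ⟨j, hj, hij⟩ := h2 i (hS hi)
    rw [eP_oo (X := Y) hj, smul_zero]
    refine pp_app_oo (f j) hij ?_
    unfold res
    rw [if_neg]
    intro h
    exact (Finset.mem_sdiff.1 h).2 hi
  · intro h
    exact absurd (Finset.empty_mem_powerset I) h

/-- a section of the map from `K` to `I` -/
private theorem pp_section (f : Mor X Y) {I : Finset (Fin m)} {K : Finset (Fin m')}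
    (h : ∀ i ∈ I, ∃ j ∈ K, (f j).src = some i) :
    ∃ K0 ⊆ K, dimS Y K0 = dimS X I ∧ (K0 = K ↔ Bij f I K) := by
  classical
  rcases I.eq_empty_or_nonempty with rfl | hne
  · refine ⟨∅, Finset.empty_subset K, rfl, ?_, ?_⟩
    · rintro rfl
      exact ⟨fun j hj => absurd hj (Finset.notMem_empty j),
        fun i hi => absurd hi (Finset.notMem_empty i)⟩
    · rintro ⟨hb, -⟩
      rw [eq_comm, Finset.eq_empty_iff_forall_notMem]
      intro j hj
      obtain ⟨i, hi, -⟩ := hb j hj
      exact Finset.notMem_empty i hi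
  obtain ⟨i0, hi0⟩ := hne
  obtain ⟨j0, -, -⟩ := h i0 hi0
  have : Nonempty (Fin m') := ⟨j0⟩
  choose! g hg1 hg2 using h
  have hinj : Set.InjOn g (I : Set (Fin m)) := by
    intro a ha b hb hab
    have h3 := (hg2 a ha).symm.trans ((congrArg (fun l => (f l).src) hab).trans (hg2 b hb))
    simpa using h3
  refine ⟨I.image g, ?_, ?_, ?_, ?_⟩
  · intro j hj
    obtain ⟨i, hi, rfl⟩ := Finset.mem_image.1 hj
    exact hg1 i hi
  · unfold dimS
    rw [Finset.sum_image hinj]
    exact Finset.sum_congr rfl fun i hi => pp_src_dim _ (hg2 i hi)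
  · intro hK
    refine ⟨fun j hj => ?_, fun i hi => ⟨g i, ⟨hg1 i hi, hg2 i hi⟩, ?_⟩⟩
    · rw [← hK] at hj
      obtain ⟨i, hi, rfl⟩ := Finset.mem_image.1 hj
      exact ⟨i, hi, hg2 i hi⟩
    · rintro j ⟨hj, hji⟩
      rw [← hK] at hj
      obtain ⟨i', hi', rfl⟩ := Finset.mem_image.1 hj
      have h3 := (hg2 i' hi').symm.trans hji
      have h4 : i' = i := by simpa using h3
      rw [h4]
  · rintro ⟨hb1, hb2⟩
    refine Finset.Subset.antisymm ?_ ?_
    · intro j hj
      obtain ⟨i, hi, rfl⟩ := Finset.mem_image.1 hj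
      exact hg1 i hi
    · intro j hj
      obtain ⟨i, hi, hji⟩ := hb1 j hj
      obtain ⟨l, -, hl⟩ := hb2 i hi
      rw [Finset.mem_image]
      exact ⟨i, hi, (hl _ ⟨hg1 i hi, hg2 i hi⟩).trans (hl j ⟨hj, hji⟩).symm⟩

private theorem pp_not_bij (f : Mor X Y) {I : Finset (Fin m)} {K : Finset (Fin m')}
    (h : ∀ i ∈ I, ∃ j ∈ K, (f j).src = some i) (hb : ¬ Bij f I K) :
    dimS X I + 1 ≤ dimS Y K := by
  classical
  obtain ⟨K0, hK0, hd, hiff⟩ := pp_section f h
  have hne : K0 ≠ K := fun e => hb (hiff.1 e)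
  obtain ⟨j, hj, hj0⟩ := Finset.exists_of_ssubset (lt_of_le_of_ne hK0 hne)
  rw [← hd]
  unfold dimS
  have h1 : ∑ l ∈ insert j K0, (Y l).dim ≤ ∑ l ∈ K, (Y l).dim := by
    refine Finset.sum_le_sum_of_subset ?_
    intro l hl
    rcases Finset.mem_insert.1 hl with rfl | hl
    · exact hj
    · exact hK0 hl
  rw [Finset.sum_insert hj0] at h1
  have h2 : 1 ≤ (Y j).dim := by
    unfold CYF.dim
    omega
  omega

private theorem pp_term (f : Mor X Y) (I : Finset (Fin m)) {x : Pts m k} (hx : OnP X x)
    (K : Finset (Fin m')) :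
    (Bij f I K → pp_sum f I x K = ((∏ j ∈ K, (f j).sgn : ℤ) : ℚ) • eP Y K (f.base x)) ∧
      (¬ Bij f I K → pp_sum f I x K ∈ FV Y (dimS X I + 1)) := by
  classical
  constructor
  · rintro ⟨h1, h2⟩
    rw [pp_main f x, pp_sign f hx]
    · intro j hj
      obtain ⟨i, -, hi⟩ := h1 j hj
      exact ⟨i, hi⟩
    · intro j hj i hi
      obtain ⟨i', hi', h3⟩ := h1 j hj
      rw [hi] at h3
      have h4 : i = i' := by simpa using h3
      rw [h4]
      exact hi'
    · intro i hi
      obtain ⟨j, ⟨hj, hji⟩, -⟩ := h2 i hi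
      exact ⟨j, hj, hji⟩
  · intro hb
    by_cases hA : ∀ j ∈ K, ∀ i, (f j).src = some i → i ∈ I
    · by_cases hB : ∀ i ∈ I, ∃ j ∈ K, (f j).src = some i
      · rw [pp_main f x hA hB]
        exact Submodule.subset_span ⟨K, f.app x, f.onP hx, pp_not_bij f hB hb, rfl⟩
      · push Not at hB
        obtain ⟨i, hi, hj⟩ := hB
        rw [pp_miss f x hi hj]
        exact zero_mem _
    · push Not at hA
      obtain ⟨j, hj, i, hi, hI⟩ := hA
      rw [pp_out f x hj hi hI]
      exact zero_mem _

open Classical in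
/-- Expand `f_* eP X I x = ∑ S, ± [f (res (I \ S) x)]` with `clP_eq_sum`:
`[f (..)] = ∑ K, eP Y K (f (..))`. The term of `K` vanishes if a component in `K` comes from a
factor outside of `I` (`eP_oo`, `oo_sg`), and after summation over `S` if some `i ∈ I` is not the
factor of a component in `K` (pair `S` with `insert i S`, `eP_congr`). Otherwise only `S = ∅`
remains (`eP_oo`), and the term is `eP Y K (f.app x)`; we have `dimS Y K ≥ dimS X I`, with equality
only if `f` induces a bijection from `K` to `I`; then `eP_sg` for all `j ∈ K`. -/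
theorem pushV_eP (f : Mor X Y) (I : Finset (Fin m)) {x : Pts m k} (hx : OnP X x) :
    pushV f (eP X I x) - ∑ K : Finset (Fin m') with Bij f I K,
      ((∏ j ∈ K, (f j).sgn : ℤ) : ℚ) • eP Y K (f.base x) ∈ FV Y (dimS X I + 1) := by
  rw [pp_expand, Finset.sum_filter, ← Finset.sum_sub_distrib]
  refine Submodule.sum_mem _ fun K _ => ?_
  obtain ⟨h1, h2⟩ := pp_term f I hx K
  by_cases hb : Bij f I K
  · rw [if_pos hb, h1 hb, sub_self]
    exact zero_mem _
  · rw [if_neg hb, sub_zero]
    exact h2 hb

/-- a bijection preserves the dimension -/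
theorem Bij.dim {f : Mor X Y} {I : Finset (Fin m)} {K : Finset (Fin m')} (h : Bij f I K) :
    dimS Y K = dimS X I := by
  obtain ⟨K0, -, hd, hiff⟩ := pp_section f (I := I) (K := K) fun i hi => by
    obtain ⟨j, ⟨hj, hji⟩, -⟩ := h.2 i hi
    exact ⟨j, hj, hji⟩
  rw [← hd, hiff.2 h]

end Pool.Agent.VFPP
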