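import Pool.Agent.VFPP.Defs2

/-!
# Signs of permutations of graded objects
-/

set_option autoImplicit false

noncomputable section

namespace Pool.Agent.VFPP

/-- the sign of the pair `(x, y)` with values `(u, v)` -/
private def sg {l : ℕ} (x y : Fin l) (u v : ℕ) (e : ℤ) : ℤ := if x < y ∧ v < u then e else 1

private theorem kz_eq {l : ℕ} (n s : Fin l → ℕ) (J : Finset (Fin l)) :
    kz n s J = ∏ j ∈ J, ∏ j' ∈ J, sg j j' (s j) (s j') ((-1) ^ (n j * n j')) := by
  unfold kz sg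
  refine Finset.prod_congr rfl fun j _ => ?_
  rw [Finset.prod_filter]

theorem kz_sq {l : ℕ} (n s : Fin l → ℕ) (J : Finset (Fin l)) : kz n s J * kz n s J = 1 := by
  rw [kz_eq, ← Finset.prod_mul_distrib]
  refine Finset.prod_eq_one fun j _ => ?_
  rw [← Finset.prod_mul_distrib]
  refine Finset.prod_eq_one fun j' _ => ?_
  unfold sg
  split_ifs
  · rw [← pow_add, ← two_mul, pow_mul]
    simp
  · simp

private theorem pair4 {l : ℕ} {a b c : Fin l} (hca : c ≠ a) (hcb : c ≠ b) {u v w : ℕ}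
    (huw : u ≠ w) (hvw : v ≠ w) {e : ℤ} (he : e * e = 1) :
    sg a c v w e * sg c a w v e * (sg b c u w e * sg c b w u e) =
      sg a c u w e * sg c a w u e * (sg b c v w e * sg c b w v e) := by
  unfold sg
  rcases lt_or_gt_of_ne hca with h1 | h1 <;> rcases lt_or_gt_of_ne hcb with h2 | h2 <;>
    rcases lt_or_gt_of_ne huw with h3 | h3 <;> rcases lt_or_gt_of_ne hvw with h4 | h4 <;>
    simp [h1, h2, h3, h4, h1.not_gt, h2.not_gt, h3.not_gt, h4.not_gt, he]

private theorem pair2 {l : ℕ} {a b : Fin l} (hab : a ≠ b) {u v : ℕ}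
    (huv : u ≠ v) {e : ℤ} (he : e * e = 1) :
    sg a b v u e * sg b a u v e = e * (sg a b u v e * sg b a v u e) := by
  unfold sg
  rcases lt_or_gt_of_ne hab with h1 | h1 <;> rcases lt_or_gt_of_ne huv with h3 | h3 <;>
    simp [h1, h3, h1.not_gt, h3.not_gt, he]

private theorem split {l : ℕ} (w : Fin l → Fin l → ℤ) {a b : Fin l} {R : Finset (Fin l)}
    (ha : a ∉ insert b R) (hb : b ∉ R) :
    ∏ j ∈ insert a (insert b R), ∏ j' ∈ insert a (insert b R), w j j' =
      w a a * w b b * (w a b * w b a) * (∏ c ∈ R, (w a c * w c a * (w b c * w c b))) *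
        ∏ c ∈ R, ∏ c' ∈ R, w c c' := by
  simp only [Finset.prod_insert ha, Finset.prod_insert hb, Finset.prod_mul_distrib]
  ring

/-- If `n a` is even nothing happens. Otherwise exactly the pairs `(a, b)`, and `(a, c)`, `(c, b)`
for `c` between `a` and `b` with `n c` odd change their sign. -/
theorem kz_swap {l : ℕ} (n s : Fin l → ℕ) (J : Finset (Fin l)) (hs : Set.InjOn s J) {a b : Fin l}
    (ha : a ∈ J) (hb : b ∈ J) (hab : a ≠ b) (hn : n a = n b) :
    kz n (s ∘ Equiv.swap a b) J = (-1) ^ n a * kz n s J := by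
  obtain ⟨R, hR⟩ : ∃ R : Finset (Fin l), R = (J.erase a).erase b := ⟨_, rfl⟩
  have hb' : b ∉ R := by rw [hR]; exact Finset.notMem_erase _ _
  have ha' : a ∉ insert b R := by
    rw [hR, Finset.insert_erase (Finset.mem_erase.2 ⟨hab.symm, hb⟩)]
    exact Finset.notMem_erase _ _
  have hJ : J = insert a (insert b R) := by
    rw [hR, Finset.insert_erase (Finset.mem_erase.2 ⟨hab.symm, hb⟩), Finset.insert_erase ha]
  have hRJ : ∀ c ∈ R, c ∈ J ∧ c ≠ a ∧ c ≠ b := by
    intro c hc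
    rw [hR] at hc
    have h1 := Finset.mem_erase.1 hc
    have h2 := Finset.mem_erase.1 h1.2
    exact ⟨h2.2, h2.1, h1.1⟩
  rw [kz_eq, kz_eq]
  conv_lhs => rw [hJ]
  conv_rhs => rw [hJ]
  rw [split _ ha' hb', split _ ha' hb']
  have hsa : (s ∘ Equiv.swap a b) a = s b := by simp
  have hsb : (s ∘ Equiv.swap a b) b = s a := by simp
  have hsc : ∀ c ∈ R, (s ∘ Equiv.swap a b) c = s c := fun c hc => by
    simp [Equiv.swap_apply_of_ne_of_ne (hRJ c hc).2.1 (hRJ c hc).2.2]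
  have hdiag : ∀ (x : Fin l) (u v : ℕ) (e : ℤ), sg x x u v e = 1 := by
    intro x u v e
    simp [sg]
  have h0 : s a ≠ s b := fun h => hab (hs ha hb h)
  have hsq : ∀ t : ℕ, ((-1 : ℤ) ^ t) * (-1) ^ t = 1 := by
    intro t
    rw [← pow_add, ← two_mul, pow_mul]
    simp
  have hpar : (-1 : ℤ) ^ (n a * n a) = (-1) ^ n a := by
    rcases Nat.even_or_odd (n a) with h | h
    · rw [h.neg_one_pow, (h.mul_left (n a)).neg_one_pow]
    · rw [h.neg_one_pow, (h.mul h).neg_one_pow]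
  simp only [hsa, hsb, hdiag, one_mul]
  have e1 : ∏ c ∈ R, (sg a c (s b) ((s ∘ Equiv.swap a b) c) ((-1) ^ (n a * n c)) *
      sg c a ((s ∘ Equiv.swap a b) c) (s b) ((-1) ^ (n c * n a)) *
      (sg b c (s a) ((s ∘ Equiv.swap a b) c) ((-1) ^ (n b * n c)) *
      sg c b ((s ∘ Equiv.swap a b) c) (s a) ((-1) ^ (n c * n b)))) =
      ∏ c ∈ R, (sg a c (s a) (s c) ((-1) ^ (n a * n c)) *
      sg c a (s c) (s a) ((-1) ^ (n c * n a)) *
      (sg b c (s b) (s c) ((-1) ^ (n b * n c)) *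
      sg c b (s c) (s b) ((-1) ^ (n c * n b)))) := by
    refine Finset.prod_congr rfl fun c hc => ?_
    obtain ⟨hcJ, hca, hcb⟩ := hRJ c hc
    rw [hsc c hc, ← hn, Nat.mul_comm (n c) (n a)]
    exact pair4 hca hcb (fun h => hca (hs hcJ ha h.symm)) (fun h => hcb (hs hcJ hb h.symm)) (hsq _)
  have e2 : ∏ c ∈ R, ∏ c' ∈ R, sg c c' ((s ∘ Equiv.swap a b) c) ((s ∘ Equiv.swap a b) c')
      ((-1) ^ (n c * n c')) = ∏ c ∈ R, ∏ c' ∈ R, sg c c' (s c) (s c') ((-1) ^ (n c * n c')) := by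
    refine Finset.prod_congr rfl fun c hc => Finset.prod_congr rfl fun c' hc' => ?_
    rw [hsc c hc, hsc c' hc']
  rw [e1, e2, ← hn, pair2 hab h0 (hsq _), hpar]
  ring

end Pool.Agent.VFPP
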