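import Pool.Agent.VFPP.E
import Pool.Agent.VFPP.Sign
import Pool.Agent.VFPP.Push

/-!
# Products of Calabi-Yau fibre products: permutations
-/

set_option autoImplicit false

noncomputable section

namespace Pool.Agent.VFPP

open Pool.Agent.ZCyc Pool.Agent.VFP

universe u

variable {k : Type u} [Field k] [IsAlgClosed k] [CharZero k] {m m' : ℕ} {X : Fin m → CYF k}
  {Y : Fin m' → CYF k}

/-- permutation of equal factors, by induction with `eP_swap` and `kz_swap` -/
theorem eP_perm {I : Finset (Fin m)} {x : Pts m k} (hx : OnP X x) (s : Fin m → ℕ)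
    (hs : Set.InjOn s I) (π : Equiv.Perm (Fin m))
    (hπ : ∀ i, X (π i) = X i) (hI : ∀ i, i ∉ I → π i = i) :
    ((kz (fun i => (X i).dim) (s ∘ π) I : ℤ) : ℚ) • eP X I (x ∘ π) =
      ((kz (fun i => (X i).dim) s I : ℤ) : ℚ) • eP X I x := by
  suffices H : ∀ (n : ℕ) (π : Equiv.Perm (Fin m)), π.support.card = n →
      (∀ i, X (π i) = X i) → (∀ i, i ∉ I → π i = i) → ∀ s : Fin m → ℕ, Set.InjOn s I →
      ∀ x : Pts m k, OnP X x →
      ((kz (fun i => (X i).dim) (s ∘ π) I : ℤ) : ℚ) • eP X I (x ∘ π) =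
      ((kz (fun i => (X i).dim) s I : ℤ) : ℚ) • eP X I x from H _ π rfl hπ hI s hs x hx
  intro n
  induction n using Nat.strong_induction_on with
  | _ n ih =>
    intro π hn hπ hI s hs x hx
    by_cases h1 : ∀ i, π i = i
    · have h2 : x ∘ π = x := by funext l; simp [h1 l]
      have h3 : s ∘ π = s := by funext l; simp [h1 l]
      rw [h2, h3]
    · push Not at h1
      obtain ⟨i, hi⟩ := h1
      have hiI : i ∈ I := by
        by_contra h
        exact hi (hI i h)
      have hjI : π i ∈ I := by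
        by_contra h
        exact hi (π.injective (hI _ h))
      set σ := Equiv.swap i (π i) * π with hσ
      have hcard : σ.support.card < π.support.card := Equiv.Perm.card_support_swap_mul hi
      have hX : X i = X (π i) := (hπ i).symm
      have hsX : ∀ l, X (Equiv.swap i (π i) l) = X l := by
        intro l
        by_cases hl : l = i
        · subst hl; simp [hX]
        · by_cases hl2 : l = π i
          · rw [hl2]; simp [hX]
          · rw [Equiv.swap_apply_of_ne_of_ne hl hl2]
      have hswI : ∀ l ∈ I, Equiv.swap i (π i) l ∈ I := by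
        intro l hl
        by_cases hl1 : l = i
        · subst hl1; simpa using hjI
        · by_cases hl2 : l = π i
          · rw [hl2]; simpa using hiI
          · rwa [Equiv.swap_apply_of_ne_of_ne hl1 hl2]
      have hσX : ∀ l, X (σ l) = X l := by
        intro l
        rw [hσ, Equiv.Perm.mul_apply, hsX, hπ]
      have hσI : ∀ l, l ∉ I → σ l = l := by
        intro l hl
        rw [hσ, Equiv.Perm.mul_apply, hI l hl]
        exact Equiv.swap_apply_of_ne_of_ne (fun e => hl (e ▸ hiI)) (fun e => hl (e ▸ hjI))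
      have hxs : OnP X (x ∘ Equiv.swap i (π i)) := by
        intro l
        have := hx (Equiv.swap i (π i) l)
        rw [hsX] at this
        exact this
      have hss : Set.InjOn (s ∘ Equiv.swap i (π i)) I := by
        intro a ha b hb hab
        exact (Equiv.swap i (π i)).injective
          (hs (hswI a ha) (hswI b hb) hab)
      have e : x ∘ π = (x ∘ Equiv.swap i (π i)) ∘ σ := by
        funext l
        simp [hσ]
      have e2 : s ∘ π = (s ∘ Equiv.swap i (π i)) ∘ σ := by
        funext l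
        simp [hσ]
      rw [e, e2, ih _ (hn ▸ hcard) σ rfl hσX hσI _ hss _ hxs,
        eP_swap hx (Ne.symm hi) hiI hjI hX,
        kz_swap (fun i => (X i).dim) s I hs hiI hjI (Ne.symm hi) (by rw [hX]), smul_smul]
      congr 1
      push_cast
      have h4 : ((-1 : ℚ) ^ (X i).dim) * (-1) ^ (X i).dim = 1 := by
        rw [← mul_pow]
        simp
      calc ((-1 : ℚ) ^ (X i).dim * (kz (fun i => (X i).dim) s I : ℚ)) * (-1) ^ (X i).dim
          = (((-1 : ℚ) ^ (X i).dim) * (-1) ^ (X i).dim) *
            (kz (fun i => (X i).dim) s I : ℚ) := by ring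
        _ = _ := by rw [h4, one_mul]

omit [IsAlgClosed k] [CharZero k] in
/-- the sign `koszul` in terms of `kz` -/
theorem koszul_eq {f : Mor X Y} {I : Finset (Fin m)} {K : Finset (Fin m')} (hf : Bij f I K)
    (s : Fin m' → ℕ) (hs : ∀ j ∈ K, ∀ i, (f j).src = some i → s j = i) :
    koszul f K = kz (fun j => (Y j).dim) s K := by
  classical
  unfold koszul kz
  apply Finset.prod_congr rfl
  intro j hj
  apply Finset.prod_congr _ fun _ _ => rfl
  apply Finset.filter_congr
  intro j' hj'
  obtain ⟨i, _, hi⟩ := hf.1 j hj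
  obtain ⟨i', _, hi'⟩ := hf.1 j' hj'
  have h1 := hs j hj i hi
  have h2 := hs j' hj' i' hi'
  constructor
  · rintro ⟨h3, a, a', ha, ha', hlt⟩
    refine ⟨h3, ?_⟩
    rw [hi, Option.some.injEq] at ha
    rw [hi', Option.some.injEq] at ha'
    subst ha
    subst ha'
    rw [h1, h2]
    exact hlt
  · rintro ⟨h3, h4⟩
    refine ⟨h3, i, i', hi, hi', ?_⟩
    rw [h1, h2] at h4
    exact h4

omit [IsAlgClosed k] [CharZero k] in
theorem koszul_sq (f : Mor X Y) (K : Finset (Fin m')) : koszul f K * koszul f K = 1 := by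
  classical
  unfold koszul
  rw [← Finset.prod_mul_distrib]
  apply Finset.prod_eq_one
  intro j _
  rw [← Finset.prod_mul_distrib]
  apply Finset.prod_eq_one
  intro j' _
  rw [← mul_pow]
  simp

omit [IsAlgClosed k] [CharZero k] in
private theorem ind_exists_equiv {f : Mor X Y} {I : Finset (Fin m)} {K : Finset (Fin m')}
    (hf : Bij f I K) :
    ∃ e : {j // j ∈ K} ≃ {i // i ∈ I}, ∀ j, (f j.1).src = some (e j).1 := by
  obtain ⟨h1, h2⟩ := hf
  choose s hs using h1
  have hinj : Function.Injective (fun j : {j // j ∈ K} => (⟨s j.1 j.2, (hs j.1 j.2).1⟩ :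
      {i // i ∈ I})) := by
    intro a b hab
    have hab' : s a.1 a.2 = s b.1 b.2 := congrArg Subtype.val hab
    obtain ⟨j, _, hj⟩ := h2 (s a.1 a.2) (hs a.1 a.2).1
    have ea := hj a.1 ⟨a.2, (hs a.1 a.2).2⟩
    have eb := hj b.1 ⟨b.2, by rw [hab']; exact (hs b.1 b.2).2⟩
    exact Subtype.ext (ea.trans eb.symm)
  have hsurj : Function.Surjective (fun j : {j // j ∈ K} => (⟨s j.1 j.2, (hs j.1 j.2).1⟩ :
      {i // i ∈ I})) := by
    intro i
    obtain ⟨j, hj, _⟩ := h2 i.1 i.2
    refine ⟨⟨j, hj.1⟩, Subtype.ext ?_⟩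
    exact (Option.some_injective _ (hj.2.symm.trans (hs j hj.1).2)).symm
  exact ⟨Equiv.ofBijective _ ⟨hinj, hsurj⟩, fun j => (hs j.1 j.2).2⟩

omit [IsAlgClosed k] [CharZero k] in
private theorem ind_src {Z : CYF k} {f : Comp X Z} {i : Fin m} (h : f.src = some i) :
    X i = Z ∧ ∀ x : Pts m k, f.base x = x i := by
  cases f with
  | const w hw => simp [Comp.src] at h
  | fac i' h' ε =>
    simp only [Comp.src, Option.some.injEq] at h
    subst h
    exact ⟨h', fun _ => rfl⟩

omit [IsAlgClosed k] [CharZero k] in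
private theorem ind_onP {f : Mor X Y} {x : Pts m k} (hx : OnP X x) : OnP Y (f.base x) := by
  intro j
  change (Y j).OnX ((f j).base x)
  cases hfj : f j with
  | const w hw => exact hw
  | fac i h ε =>
    have := hx i
    rw [h] at this
    exact this

/-- both morphisms induce bijections `K → I`, which differ by a permutation of `K` -/
theorem eP_indep {f f' : Mor X Y} {I : Finset (Fin m)} {K : Finset (Fin m')}
    (hf : Bij f I K) (hf' : Bij f' I K) {x : Pts m k} (hx : OnP X x) :
    ((koszul f K : ℤ) : ℚ) • eP Y K (f.base x) = ((koszul f' K : ℤ) : ℚ) • eP Y K (f'.base x) := by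
  classical
  obtain ⟨e, he⟩ := ind_exists_equiv hf
  obtain ⟨e', he'⟩ := ind_exists_equiv hf'
  let π₀ : Equiv.Perm {j // j ∈ K} := e'.trans e.symm
  let π : Equiv.Perm (Fin m') := Equiv.Perm.ofSubtype π₀
  have hπ : ∀ j (hj : j ∈ K), π j = (e.symm (e' ⟨j, hj⟩)).1 := by
    intro j hj
    exact Equiv.Perm.ofSubtype_apply_of_mem π₀ hj
  have hπ' : ∀ j, j ∉ K → π j = j := fun j hj => Equiv.Perm.ofSubtype_apply_of_not_mem π₀ hj
  have hπK : ∀ j, j ∈ K → π j ∈ K := by
    intro j hj
    rw [hπ j hj]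
    exact (e.symm (e' ⟨j, hj⟩)).2
  have hsrc : ∀ j (hj : j ∈ K), (f (π j)).src = some (e' ⟨j, hj⟩).1 := by
    intro j hj
    rw [hπ j hj, he, Equiv.apply_symm_apply]
  have hY : ∀ j, Y (π j) = Y j := by
    intro j
    by_cases hj : j ∈ K
    · exact (ind_src (hsrc j hj)).1.symm.trans (ind_src (he' ⟨j, hj⟩)).1
    · rw [hπ' j hj]
  let s : Fin m' → ℕ := fun j => ((f j).src).elim 0 (fun i => (i : ℕ))
  have hs : ∀ j i, (f j).src = some i → s j = i := by
    intro j i h
    simp only [s, h, Option.elim_some]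
  have hsinj : Set.InjOn s K := by
    intro a ha b hb hab
    have h1 := hs a _ (he ⟨a, ha⟩)
    have h2 := hs b _ (he ⟨b, hb⟩)
    have h3 : e ⟨a, ha⟩ = e ⟨b, hb⟩ := by
      apply Subtype.ext
      apply Fin.ext
      rw [← h1, ← h2, hab]
    exact congrArg Subtype.val (e.injective h3)
  have hk1 : koszul f K = kz (fun j => (Y j).dim) s K :=
    koszul_eq hf s (fun j _ i h => hs j i h)
  have hk2 : koszul f' K = kz (fun j => (Y j).dim) (s ∘ π) K := by
    apply koszul_eq hf' (s ∘ π)
    intro j hj i h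
    have h1 : (f (π j)).src = some i := by
      rw [hsrc j hj, ← he' ⟨j, hj⟩]
      exact h
    exact hs _ _ h1
  have h3 := eP_perm (X := Y) (ind_onP (f := f) hx) s hsinj π hY hπ'
  rw [hk1, hk2, ← h3]
  congr 1
  refine eP_congr K fun j hj => ?_
  change (f (π j)).base x = (f' j).base x
  rw [(ind_src (hsrc j hj)).2 x, (ind_src (he' ⟨j, hj⟩)).2 x]

end Pool.Agent.VFPP
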