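import Pool.Agent.VFPP.Gen
import Pool.Agent.VFPP.Valid
import Pool.Agent.VFP.Final
import Pool.Agent.VFP.Parts

/-!
# Products of Calabi-Yau fibre products: relations from one or two factors
-/

set_option autoImplicit false

noncomputable section

namespace Pool.Agent.VFPP

open Pool.Agent.ZCyc Pool.Agent.VFP

universe u

variable {k : Type u} [Field k] [IsAlgClosed k] [CharZero k] {m : ℕ} {X : Fin m → CYF k}

/-- the constant point -/
private def pcst (w : Pt k) : Pt (Om k) where
  s j := algebraMap k (Om k) (w.s j)
  x i := algebraMap k (Om k) (w.x i)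
  z i := algebraMap k (Om k) (w.z i)
  y b := algebraMap k (Om k) (w.y b)

omit [IsAlgClosed k] [CharZero k] in
private theorem pcst_map (g : Om k ≃ₐ[RatFunc k] Om k) (w : Pt k) :
    pcst w = (pcst w).map g := by
  have h : ∀ c : k, algebraMap k (Om k) c = g (algebraMap k (Om k) c) := by
    intro c
    rw [IsScalarTower.algebraMap_apply k (RatFunc k) (Om k), g.commutes]
  refine Pt.ext ?_ ?_ ?_ ?_ <;> funext j
  · exact h _
  · exact h _
  · exact h _
  · exact h _

omit [IsAlgClosed k] [CharZero k] in
private theorem pt_map {N r : ℕ} (g : Om k ≃ₐ[RatFunc k] Om k) (w : Crd N r (Om k)) :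
    pt (w.map g) = (pt w).map g := by
  refine Pt.ext ?_ ?_ ?_ ?_ <;> funext j
  · rfl
  · show (if h : j < N then g (w.x ⟨j, h⟩) else 0) = g (if h : j < N then w.x ⟨j, h⟩ else 0)
    split_ifs
    · rfl
    · exact (map_zero g).symm
  · show (if h : j < N then g (w.z ⟨j, h⟩) else 0) = g (if h : j < N then w.z ⟨j, h⟩ else 0)
    split_ifs
    · rfl
    · exact (map_zero g).symm
  · show (if h : j < r then g (w.y ⟨j, h⟩) else 0) = g (if h : j < r then w.y ⟨j, h⟩ else 0)
    split_ifs
    · rfl
    · exact (map_zero g).symm

omit [IsAlgClosed k] [CharZero k] in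
private theorem pcst_crd (N r : ℕ) (w : Pt k) : (pcst w).crd N r = cst (Om k) (w.crd N r) := rfl

private theorem onX_pcst {Z : CYF k} {w : Pt k} (h : Z.OnX w) : Z.OnX (pcst w) := by
  unfold CYF.OnX at h ⊢
  rw [pcst_crd]
  exact onX_cst h

private theorem isValue_pcst (Z : CYF k) (v : Place k (Om k)) (w : Pt k) :
    Z.IsValue v (pcst w) w := by
  unfold CYF.IsValue
  rw [pcst_crd]
  exact isValue_cst v _

omit [IsAlgClosed k] [CharZero k] in
private theorem onX_pt {Z Z' : CYF k} (h : Z = Z') {K : Type*} [Field K] [Algebra k K]
    {w : Crd Z.N Z.r K} (hw : Z.D.OnX w) : Z'.OnX (pt w) := by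
  subst h
  show Z.D.OnX ((pt w).crd _ _)
  rw [crd_pt]
  exact hw

omit [IsAlgClosed k] [CharZero k] in
private theorem isValue_pt {Z Z' : CYF k} (h : Z = Z') {v : Place k (Om k)}
    {P : Crd Z.N Z.r (Om k)} {p : Crd Z.N Z.r k} (hP : Z.D.IsValue v P p) :
    Z'.IsValue v (pt P) (pt p) := by
  subst h
  show Z.D.IsValue v ((pt P).crd _ _) ((pt p).crd _ _)
  rw [crd_pt, crd_pt]
  exact hP

/-- the other coordinates are constant -/
theorem ins2_mem {x : Pts m k} (hx : OnP X x) {i j : Fin m} (hij : i ≠ j) (h : X i = X j)
    {z : Crd (X i).N (X i).r k × Crd (X i).N (X i).r k →₀ ℚ} (hz : z ∈ (X i).D.ratEq) :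
    z.mapDomain (fun w => Function.update (Function.update x i (pt w.1)) j (pt w.2)) ∈
      ratEqP X := by
  have key : (X i).D.ratEq ≤ (ratEqP X).comap (Finsupp.lmapDomain ℚ ℚ
      (fun w : Crd (X i).N (X i).r k × Crd (X i).N (X i).r k =>
        Function.update (Function.update x i (pt w.1)) j (pt w.2))) := by
    unfold Dat.ratEq
    rw [Submodule.span_le]
    rintro z ⟨n, P, Q, a, b, v, w, p, q, p', q', hOn, hG, hv, hw, hp, hp', rfl⟩
    refine Submodule.subset_span ⟨n,
      fun t => Function.update (Function.update (fun l => pcst (x l)) i (pt (P t))) j (pt (Q t)),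
      a, b, v, w,
      fun t => Function.update (Function.update x i (pt (p t))) j (pt (q t)),
      fun t => Function.update (Function.update x i (pt (p' t))) j (pt (q' t)),
      fun t l => ?_, fun g => ?_, hv, hw, fun t => ⟨fun l => ?_, fun l => ?_⟩,
      fun t => ⟨fun l => ?_, fun l => ?_⟩, ?_⟩
    · beta_reduce
      by_cases h1 : l = j
      · subst h1
        rw [Function.update_self]
        exact onX_pt h (hOn t).2
      · rw [Function.update_of_ne h1]
        by_cases h2 : l = i
        · subst h2
          rw [Function.update_self]
          exact onX_pt rfl (hOn t).1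
        · rw [Function.update_of_ne h2]
          exact onX_pcst (hx l)
    · obtain ⟨e, he⟩ := hG g
      refine ⟨e, fun t l => ?_⟩
      beta_reduce
      by_cases h1 : l = j
      · subst h1
        rw [Function.update_self, Function.update_self, (he t).2]
        exact pt_map g _
      · rw [Function.update_of_ne h1, Function.update_of_ne h1]
        by_cases h2 : l = i
        · subst h2
          rw [Function.update_self, Function.update_self, (he t).1]
          exact pt_map g _
        · rw [Function.update_of_ne h2, Function.update_of_ne h2]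
          exact pcst_map g (x l)
    · beta_reduce
      by_cases h1 : l = j
      · subst h1
        rw [Function.update_self]
        exact onX_pt h (hp t).2.1
      · rw [Function.update_of_ne h1]
        by_cases h2 : l = i
        · subst h2
          rw [Function.update_self]
          exact onX_pt rfl (hp t).1
        · rw [Function.update_of_ne h2]
          exact hx l
    · beta_reduce
      by_cases h1 : l = j
      · subst h1
        rw [Function.update_self, Function.update_self]
        exact isValue_pt h (hp t).2.2.2
      · rw [Function.update_of_ne h1, Function.update_of_ne h1]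
        by_cases h2 : l = i
        · subst h2
          rw [Function.update_self, Function.update_self]
          exact isValue_pt rfl (hp t).2.2.1
        · rw [Function.update_of_ne h2, Function.update_of_ne h2]
          exact isValue_pcst (X l) v (x l)
    · beta_reduce
      by_cases h1 : l = j
      · subst h1
        rw [Function.update_self]
        exact onX_pt h (hp' t).2.1
      · rw [Function.update_of_ne h1]
        by_cases h2 : l = i
        · subst h2
          rw [Function.update_self]
          exact onX_pt rfl (hp' t).1
        · rw [Function.update_of_ne h2]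
          exact hx l
    · beta_reduce
      by_cases h1 : l = j
      · subst h1
        rw [Function.update_self, Function.update_self]
        exact isValue_pt h (hp' t).2.2.2
      · rw [Function.update_of_ne h1, Function.update_of_ne h1]
        by_cases h2 : l = i
        · subst h2
          rw [Function.update_self, Function.update_self]
          exact isValue_pt rfl (hp' t).2.2.1
        · rw [Function.update_of_ne h2, Function.update_of_ne h2]
          exact isValue_pcst (X l) w (x l)
    · rw [map_sum]
      refine Finset.sum_congr rfl fun t _ => ?_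
      rw [map_sub, Finsupp.lmapDomain_apply, Finsupp.lmapDomain_apply, Finsupp.mapDomain_single,
        Finsupp.mapDomain_single]
  exact key hz

/-- forget the second point, the other coordinates are constant -/
theorem ins1_mem {x : Pts m k} (hx : OnP X x) (i : Fin m)
    {z : Crd (X i).N (X i).r k × Crd (X i).N (X i).r k →₀ ℚ} (hz : z ∈ (X i).D.ratEq) :
    z.mapDomain (fun w => Function.update x i (pt w.1)) ∈ ratEqP X := by
  have key : (X i).D.ratEq ≤ (ratEqP X).comap (Finsupp.lmapDomain ℚ ℚ
      (fun w : Crd (X i).N (X i).r k × Crd (X i).N (X i).r k =>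
        Function.update x i (pt w.1))) := by
    unfold Dat.ratEq
    rw [Submodule.span_le]
    rintro z ⟨n, P, Q, a, b, v, w, p, q, p', q', hOn, hG, hv, hw, hp, hp', rfl⟩
    refine Submodule.subset_span ⟨n,
      fun t => Function.update (fun l => pcst (x l)) i (pt (P t)),
      a, b, v, w,
      fun t => Function.update x i (pt (p t)),
      fun t => Function.update x i (pt (p' t)),
      fun t l => ?_, fun g => ?_, hv, hw, fun t => ⟨fun l => ?_, fun l => ?_⟩,
      fun t => ⟨fun l => ?_, fun l => ?_⟩, ?_⟩
    · beta_reduce
      by_cases h2 : l = i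
      · subst h2
        rw [Function.update_self]
        exact onX_pt rfl (hOn t).1
      · rw [Function.update_of_ne h2]
        exact onX_pcst (hx l)
    · obtain ⟨e, he⟩ := hG g
      refine ⟨e, fun t l => ?_⟩
      beta_reduce
      by_cases h2 : l = i
      · subst h2
        rw [Function.update_self, Function.update_self, (he t).1]
        exact pt_map g _
      · rw [Function.update_of_ne h2, Function.update_of_ne h2]
        exact pcst_map g (x l)
    · beta_reduce
      by_cases h2 : l = i
      · subst h2
        rw [Function.update_self]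
        exact onX_pt rfl (hp t).1
      · rw [Function.update_of_ne h2]
        exact hx l
    · beta_reduce
      by_cases h2 : l = i
      · subst h2
        rw [Function.update_self, Function.update_self]
        exact isValue_pt rfl (hp t).2.2.1
      · rw [Function.update_of_ne h2, Function.update_of_ne h2]
        exact isValue_pcst (X l) v (x l)
    · beta_reduce
      by_cases h2 : l = i
      · subst h2
        rw [Function.update_self]
        exact onX_pt rfl (hp' t).1
      · rw [Function.update_of_ne h2]
        exact hx l
    · beta_reduce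
      by_cases h2 : l = i
      · subst h2
        rw [Function.update_self, Function.update_self]
        exact isValue_pt rfl (hp' t).2.2.1
      · rw [Function.update_of_ne h2, Function.update_of_ne h2]
        exact isValue_pcst (X l) w (x l)
    · rw [map_sum]
      refine Finset.sum_congr rfl fun t _ => ?_
      rw [map_sub, Finsupp.lmapDomain_apply, Finsupp.lmapDomain_apply, Finsupp.mapDomain_single,
        Finsupp.mapDomain_single]
  exact key hz

omit [IsAlgClosed k] [CharZero k] in
private theorem clP_upd {x : Pts m k} (hx : OnP X x) (i : Fin m)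
    {a : Crd (X i).N (X i).r k} (ha : (X i).D.OnX a) {y : Pts m k}
    (hy : ∀ l, l ≠ i → y l = x l) (hi : (y i).crd (X i).N (X i).r = a) :
    clP X (Function.update x i (pt a)) = clP X y := by
  refine clP_crd (fun l => ?_) fun l => ?_
  · by_cases h2 : l = i
    · subst h2
      rw [Function.update_self]
      exact onX_pt rfl ha
    · rw [Function.update_of_ne h2]
      exact hx l
  · by_cases h2 : l = i
    · subst h2
      rw [Function.update_self, hi, crd_pt]
    · rw [Function.update_of_ne h2, hy l h2]

omit [IsAlgClosed k] [CharZero k] in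
private theorem clP_upd2 {x : Pts m k} (hx : OnP X x) {i j : Fin m} (hij : i ≠ j)
    (h : X i = X j) {a b : Crd (X i).N (X i).r k} (ha : (X i).D.OnX a) (hb : (X i).D.OnX b)
    {y : Pts m k} (hy : ∀ l, l ≠ i → l ≠ j → y l = x l)
    (hi : (y i).crd (X i).N (X i).r = a) (hj : (y j).crd (X i).N (X i).r = b) :
    clP X (Function.update (Function.update x i (pt a)) j (pt b)) = clP X y := by
  refine clP_crd (fun l => ?_) fun l => ?_
  · by_cases h1 : l = j
    · subst h1
      rw [Function.update_self]
      exact onX_pt h hb
    · rw [Function.update_of_ne h1]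
      by_cases h2 : l = i
      · subst h2
        rw [Function.update_self]
        exact onX_pt rfl ha
      · rw [Function.update_of_ne h2]
        exact hx l
  · by_cases h1 : l = j
    · subst h1
      rw [Function.update_self, ← h, hj, crd_pt]
    · rw [Function.update_of_ne h1]
      by_cases h2 : l = i
      · subst h2
        rw [Function.update_self, hi, crd_pt]
      · rw [Function.update_of_ne h2, hy l h2 h1]

omit [IsAlgClosed k] [CharZero k] in
private theorem pos_r (Z : CYF k) : 0 < Z.r := by
  rcases Nat.eq_zero_or_pos Z.r with h0 | h0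
  · have h1 := Z.sum
    rw [Finset.sum_eq_zero fun i _ => absurd (Z.D.blk i).2 (by omega)] at h1
    omega
  · exact h0

/-- `[ε w] - [o] = ± ([w] - [o])`: from `VFP.parts_left` with `o = oo.crd`, `VFP.T1_sg` and
`VFP.T1_y` (all coordinates `y_b` of `o` are zero; `r > 0` since `sum` and `surj`), inserted with
`ins1_mem`; then `clP_crd`. -/
theorem clP_sg {x : Pts m k} (hx : OnP X x) (i : Fin m) (ε : ℕ → ℤˣ) :
    clP X (Function.update x i ((x i).sg ε)) - clP X (Function.update x i oo) =
      ((snP (X i).r ε : ℤ) : ℚ) • (clP X x - clP X (Function.update x i oo)) := by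
  set D := (X i).D with hD
  set w : Crd (X i).N (X i).r k := (x i).crd (X i).N (X i).r with hwdef
  set o : Crd (X i).N (X i).r k := (oo : Pt k).crd (X i).N (X i).r with hodef
  set ε' : Fin (X i).r → ℤˣ := fun b => ε b with hε'
  have hw : D.OnX w := hx i
  have ho : D.OnX o := onX_oo (X i)
  have hwε : D.OnX (VFP.sg ε' w) := VFP.onX_sg ε' hw
  have h1 := parts_left (X i).valid hw ho hw
  have h2 := parts_left (X i).valid hwε ho hw
  have h3 : D.T1 o w = 0 := T1_y (b := ⟨0, pos_r (X i)⟩) rfl w
  rw [h3, sub_zero] at h1 h2
  rw [T1_sg] at h2
  have h4 : D.cv (VFP.sg ε' w) w - D.cv o w - sn ε' • (D.cv w w - D.cv o w) = 0 := by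
    have h5 : (2 : ℚ) ^ (X i).r • (D.cv (VFP.sg ε' w) w - D.cv o w -
        sn ε' • (D.cv w w - D.cv o w)) = 0 := by
      rw [smul_sub, smul_sub, smul_comm, smul_sub]
      rw [sub_eq_iff_eq_add] at h1 h2
      rw [h1, h2]
      module
    exact (smul_eq_zero.1 h5).resolve_left (by positivity)
  have h5 : Finsupp.single (VFP.sg ε' w, w) (1 : ℚ) - Finsupp.single (o, w) 1 -
      sn ε' • (Finsupp.single (w, w) (1 : ℚ) - Finsupp.single (o, w) 1) ∈ D.ratEq := by
    rw [← Submodule.Quotient.mk_eq_zero]
    exact h4
  have h6 := ins1_mem hx i h5
  rw [← Finsupp.lmapDomain_apply (M := ℚ) (R := ℚ), map_sub, map_sub, map_smul, map_sub,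
    Finsupp.lmapDomain_apply, Finsupp.lmapDomain_apply, Finsupp.lmapDomain_apply,
    Finsupp.mapDomain_single, Finsupp.mapDomain_single, Finsupp.mapDomain_single,
    ← Submodule.Quotient.mk_eq_zero] at h6
  have h7 : clP X (Function.update x i (pt (VFP.sg ε' w))) - clP X (Function.update x i (pt o)) -
      sn ε' • (clP X (Function.update x i (pt w)) - clP X (Function.update x i (pt o))) = 0 := h6
  have e1 : clP X (Function.update x i (pt w)) = clP X x :=
    clP_upd hx i hw (fun _ _ => rfl) rfl
  have e2 : clP X (Function.update x i (pt o)) = clP X (Function.update x i oo) :=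
    clP_upd hx i ho (fun l hl => Function.update_of_ne hl _ _) (by rw [Function.update_self])
  have e3 : clP X (Function.update x i (pt (VFP.sg ε' w))) =
      clP X (Function.update x i ((x i).sg ε)) :=
    clP_upd hx i hwε (fun l hl => Function.update_of_ne hl _ _)
      (by rw [Function.update_self, crd_sg])
  rw [e1, e2, e3, sub_eq_zero] at h7
  rw [h7, snP_eq]

/-- the product of `[x i] - [o]` and `[x j] - [o]` and of the other points -/
def dd (X : Fin m → CYF k) (i j : Fin m) (x : Pts m k) : VP X :=
  clP X x - clP X (Function.update x i oo) - clP X (Function.update x j oo) +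
    clP X (Function.update (Function.update x i oo) j oo)

omit [Field k] [IsAlgClosed k] [CharZero k] in
private theorem prod_eq {N r : ℕ} (a b o : Crd N r k) :
    VFP.prod (Finsupp.single a 1 - Finsupp.single o 1) (Finsupp.single b 1 - Finsupp.single o 1) =
      Finsupp.single (a, b) 1 - Finsupp.single (a, o) 1 - Finsupp.single (o, b) 1 +
        Finsupp.single (o, o) 1 := by
  unfold VFP.prod
  rw [Finsupp.sum_sub_index, Finsupp.sum_single_index, Finsupp.sum_single_index,
    Finsupp.sum_sub_index, Finsupp.sum_sub_index]
  · simp only [mul_zero, Finsupp.single_zero, Finsupp.sum_single_index, mul_one]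
    abel
  · intro q c c'
    rw [mul_sub, Finsupp.single_sub]
  · intro q c c'
    rw [mul_sub, Finsupp.single_sub]
  · simp only [zero_mul, Finsupp.single_zero]
    exact Finset.sum_const_zero
  · simp only [zero_mul, Finsupp.single_zero]
    exact Finset.sum_const_zero
  · intro p c c'
    simp only [sub_mul, Finsupp.single_sub, Finsupp.sum_sub]

/-- From `VFP.voisin` for `[x i] - [o]` and `[x j] - [o]` with `ins2_mem`. -/
theorem dd_swap {x : Pts m k} (hx : OnP X x) {i j : Fin m} (hij : i ≠ j) (h : X i = X j) :
    dd X i j (x ∘ Equiv.swap i j) = ((-1 : ℚ) ^ (X i).dim) • dd X i j x := by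
  set D := (X i).D with hD
  set w : Crd (X i).N (X i).r k := (x i).crd (X i).N (X i).r with hwdef
  set w' : Crd (X i).N (X i).r k := (x j).crd (X i).N (X i).r with hwdef'
  set o : Crd (X i).N (X i).r k := (oo : Pt k).crd (X i).N (X i).r with hodef
  have hw : D.OnX w := hx i
  have hw' : D.OnX w' := by
    have h0 := hx j
    rw [← h] at h0
    exact h0
  have ho : D.OnX o := onX_oo (X i)
  have hsupp : ∀ {a b : Crd (X i).N (X i).r k}, D.OnX a → D.OnX b →
      ∀ p ∈ (Finsupp.single a (1 : ℚ) - Finsupp.single b 1).support, D.OnX p := by
    classical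
    intro a b ha hb p hp
    rcases Finset.mem_union.1 (Finsupp.support_sub hp) with h1 | h1
    · rw [Finset.mem_singleton.1 (Finsupp.support_single_subset h1)]
      exact ha
    · rw [Finset.mem_singleton.1 (Finsupp.support_single_subset h1)]
      exact hb
  have hsum : ∀ a b : Crd (X i).N (X i).r k,
      (Finsupp.single a (1 : ℚ) - Finsupp.single b 1).sum (fun _ c => c) = 0 := by
    intro a b
    rw [Finsupp.sum_sub_index (fun _ _ _ => rfl), Finsupp.sum_single_index rfl,
      Finsupp.sum_single_index rfl, sub_self]
  have h1 := voisin (X i).valid (hsupp hw ho) (hsupp hw' ho) (hsum w o) (hsum w' o)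
  rw [prod_eq, prod_eq] at h1
  have h2 := ins2_mem hx hij h h1
  rw [← Finsupp.lmapDomain_apply (M := ℚ) (R := ℚ)] at h2
  simp only [map_sub, map_add, map_smul, Finsupp.lmapDomain_apply, Finsupp.mapDomain_single] at h2
  rw [← Submodule.Quotient.mk_eq_zero] at h2
  have h3 : clP X (Function.update (Function.update x i (pt w)) j (pt w')) -
      clP X (Function.update (Function.update x i (pt w)) j (pt o)) -
      clP X (Function.update (Function.update x i (pt o)) j (pt w')) +
      clP X (Function.update (Function.update x i (pt o)) j (pt o)) -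
      (-1 : ℚ) ^ ((X i).N + 1) •
        (clP X (Function.update (Function.update x i (pt w')) j (pt w)) -
        clP X (Function.update (Function.update x i (pt w')) j (pt o)) -
        clP X (Function.update (Function.update x i (pt o)) j (pt w)) +
        clP X (Function.update (Function.update x i (pt o)) j (pt o))) = 0 := h2
  have hji : j ≠ i := hij.symm
  -- the eight classes
  have e1 : clP X (Function.update (Function.update x i (pt w)) j (pt w')) = clP X x :=
    clP_upd2 hx hij h hw hw' (fun _ _ _ => rfl) rfl rfl
  have e2 : clP X (Function.update (Function.update x i (pt w)) j (pt o)) =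
      clP X (Function.update x j oo) :=
    clP_upd2 hx hij h hw ho (fun l _ hl => Function.update_of_ne hl _ _)
      (by rw [Function.update_of_ne hij]) (by rw [Function.update_self])
  have e3 : clP X (Function.update (Function.update x i (pt o)) j (pt w')) =
      clP X (Function.update x i oo) :=
    clP_upd2 hx hij h ho hw' (fun l hl _ => Function.update_of_ne hl _ _)
      (by rw [Function.update_self]) (by rw [Function.update_of_ne hji])
  have e4 : clP X (Function.update (Function.update x i (pt o)) j (pt o)) =
      clP X (Function.update (Function.update x i oo) j oo) :=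
    clP_upd2 hx hij h ho ho
      (fun l hl hl' => by rw [Function.update_of_ne hl', Function.update_of_ne hl])
      (by rw [Function.update_of_ne hij, Function.update_self]) (by rw [Function.update_self])
  have s1 : ∀ l, l ≠ i → l ≠ j → (x ∘ Equiv.swap i j) l = x l := by
    intro l hl hl'
    rw [Function.comp_apply, Equiv.swap_apply_of_ne_of_ne hl hl']
  have s2 : (x ∘ Equiv.swap i j) i = x j := by
    rw [Function.comp_apply, Equiv.swap_apply_left]
  have s3 : (x ∘ Equiv.swap i j) j = x i := by
    rw [Function.comp_apply, Equiv.swap_apply_right]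
  have e5 : clP X (Function.update (Function.update x i (pt w')) j (pt w)) =
      clP X (x ∘ Equiv.swap i j) :=
    clP_upd2 hx hij h hw' hw s1 (by rw [s2]) (by rw [s3])
  have e6 : clP X (Function.update (Function.update x i (pt w')) j (pt o)) =
      clP X (Function.update (x ∘ Equiv.swap i j) j oo) :=
    clP_upd2 hx hij h hw' ho (fun l hl hl' => by rw [Function.update_of_ne hl', s1 l hl hl'])
      (by rw [Function.update_of_ne hij, s2]) (by rw [Function.update_self])
  have e7 : clP X (Function.update (Function.update x i (pt o)) j (pt w)) =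
      clP X (Function.update (x ∘ Equiv.swap i j) i oo) :=
    clP_upd2 hx hij h ho hw (fun l hl hl' => by rw [Function.update_of_ne hl, s1 l hl hl'])
      (by rw [Function.update_self]) (by rw [Function.update_of_ne hji, s3])
  have e8 : clP X (Function.update (Function.update x i (pt o)) j (pt o)) =
      clP X (Function.update (Function.update (x ∘ Equiv.swap i j) i oo) j oo) :=
    clP_upd2 hx hij h ho ho
      (fun l hl hl' => by
        rw [Function.update_of_ne hl', Function.update_of_ne hl, s1 l hl hl'])
      (by rw [Function.update_of_ne hij, Function.update_self]) (by rw [Function.update_self])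
  have h4 : dd X i j x = (-1 : ℚ) ^ ((X i).N + 1) • dd X i j (x ∘ Equiv.swap i j) := by
    unfold dd
    rw [e1, e2, e3, e4, e5, e6, e7] at h3
    have h6 := sub_eq_zero.1 h3
    rw [← e8, e4, sub_right_comm (clP X x), h6,
      sub_right_comm (clP X (x ∘ Equiv.swap i j))]
  have h5 : (-1 : ℚ) ^ ((X i).N + 1) * (-1 : ℚ) ^ ((X i).N + 1) = 1 := by
    rw [← mul_pow]
    norm_num
  rw [h4, smul_smul]
  show _ = ((-1 : ℚ) ^ ((X i).N + 1) * (-1 : ℚ) ^ ((X i).N + 1)) • _
  rw [h5, one_smul]

end Pool.Agent.VFPP
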