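import Pool.Agent.VFPP.PFil
import Pool.Agent.VFPP.Push
import Pool.Agent.VFPP.Indep

/-!
# Products of Calabi-Yau fibre products: functoriality
-/

set_option autoImplicit false

noncomputable section

namespace Pool.Agent.VFPP

open Pool.Agent.ZCyc Pool.Agent.VFP

universe u

variable {k : Type u} [Field k] [IsAlgClosed k] [CharZero k] {m m' : ℕ} {X : Fin m → CYF k}
  {Y : Fin m' → CYF k}

/-- the push-forward of classes by a combination of morphisms -/
private def pushGV (γ : Mor X Y →₀ ℚ) : VP X →ₗ[ℚ] VP Y := γ.sum fun f c => c • pushV f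

omit [IsAlgClosed k] [CharZero k] in
private theorem pushGV_apply (γ : Mor X Y →₀ ℚ) (z : VP X) :
    pushGV γ z = ∑ f ∈ γ.support, γ f • pushV f z := by
  simp [pushGV, Finsupp.sum, LinearMap.sum_apply]

omit [IsAlgClosed k] [CharZero k] in
private theorem mkQ_pushM (γ : Mor X Y →₀ ℚ) (z : Pts m k →₀ ℚ) :
    (ratEqP Y).mkQ (pushM γ z) = pushGV γ ((ratEqP X).mkQ z) := by
  rw [pushGV_apply, pushM, Finsupp.sum, LinearMap.sum_apply, map_sum]
  refine Finset.sum_congr rfl fun f _ => ?_
  rw [LinearMap.smul_apply, map_smul]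
  rfl

/-- the push-forward of a generator by one morphism -/
private theorem pushV_eP_mem (f : Mor X Y) (I : Finset (Fin m)) {x : Pts m k} (hx : OnP X x) :
    pushV f (eP X I x) ∈ FV Y (dimS X I) := by
  classical
  have h1 := FV_anti Y (Nat.le_succ (dimS X I)) (pushV_eP f I hx)
  have h2 : (∑ K : Finset (Fin m') with Bij f I K,
      ((∏ j ∈ K, (f j).sgn : ℤ) : ℚ) • eP Y K (f.base x)) ∈ FV Y (dimS X I) := by
    refine Submodule.sum_mem _ fun K hK => Submodule.smul_mem _ _ (Submodule.subset_span ?_)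
    rw [Finset.mem_filter] at hK
    exact ⟨K, f.base x, Mor.onP_base f hx, hK.2.dim.ge, rfl⟩
  have := Submodule.add_mem _ h1 h2
  rwa [sub_add_cancel] at this

private theorem map_le_of_FV {μ ν : ℕ} (γ : Mor X Y →₀ ℚ)
    (h : ∀ (I : Finset (Fin m)) (x : Pts m k), OnP X x → ν ≤ dimS X I →
      pushGV γ (eP X I x) ∈ FV Y μ) : (Fil X ν).map (pushM γ) ≤ Fil Y μ := by
  rw [Submodule.map_le_iff_le_comap, Fil_eq X ν, Fil_eq Y μ]
  have h1 : FV X ν ≤ (FV Y μ).comap (pushGV γ) := by
    rw [FV, Submodule.span_le]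
    rintro _ ⟨I, x, hx, hI, rfl⟩
    exact h I x hx hI
  intro z hz
  rw [Submodule.mem_comap] at hz ⊢
  rw [Submodule.mem_comap, mkQ_pushM]
  exact h1 hz

theorem Fil_map (γ : Mor X Y →₀ ℚ) (ν : ℕ) : (Fil X ν).map (pushM γ) ≤ Fil Y ν := by
  refine map_le_of_FV γ fun I x hx hI => ?_
  rw [pushGV_apply]
  exact Submodule.sum_mem _ fun f _ =>
    Submodule.smul_mem _ _ (FV_anti Y hI (pushV_eP_mem f I hx))

omit [IsAlgClosed k] [CharZero k] in
open Classical in
private theorem pullCoef_eq (f : Mor X Y) (I : Finset (Fin m)) (K : Finset (Fin m')) :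
    pullCoef f I K = if Bij f I K then koszul f K * ∏ j ∈ K, (f j).sgn else 0 := by
  by_cases h : Bij f I K
  · exact (if_pos h).trans (if_pos h).symm
  · exact (if_neg h).trans (if_neg h).symm

/-- The terms with `Bij f I K`, `dimS X I = ν`: `(∏ sgn) = koszul * pullCoef`, by `koszul_sq`; use
`eP_indep` and the definition of `KillsForms`. -/
theorem Fil_grad (γ : Mor X Y →₀ ℚ) (ν : ℕ) (h : KillsForms γ ν) :
    (Fil X ν).map (pushM γ) ≤ Fil Y (ν + 1) := by
  classical
  refine map_le_of_FV γ fun I x hx hI => ?_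
  rw [pushGV_apply]
  rcases Nat.lt_or_ge ν (dimS X I) with hlt | hge
  · exact Submodule.sum_mem _ fun f _ =>
      Submodule.smul_mem _ _ (FV_anti Y hlt (pushV_eP_mem f I hx))
  · have hν : ν = dimS X I := le_antisymm hI hge
    -- the terms of `K` cancel
    have hK : ∀ K : Finset (Fin m'), ∑ f ∈ γ.support, γ f • (if Bij f I K then
        ((∏ j ∈ K, (f j).sgn : ℤ) : ℚ) • eP Y K (f.base x) else 0) = 0 := by
      intro K
      by_cases hex : ∃ f0 : Mor X Y, Bij f0 I K
      · obtain ⟨f0, hf0⟩ := hex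
        have : ∀ f ∈ γ.support, γ f • (if Bij f I K then
            ((∏ j ∈ K, (f j).sgn : ℤ) : ℚ) • eP Y K (f.base x) else 0) =
            (γ f * (pullCoef f I K : ℚ)) • (((koszul f0 K : ℤ) : ℚ) • eP Y K (f0.base x)) := by
          intro f _
          rw [pullCoef_eq]
          by_cases hf : Bij f I K
          · have h2 : ((koszul f K : ℤ) : ℚ) * ((koszul f K : ℤ) : ℚ) = 1 := by
              rw [← Int.cast_mul, koszul_sq, Int.cast_one]
            rw [if_pos hf, if_pos hf, ← eP_indep hf hf0 hx, smul_smul, smul_smul, Int.cast_mul]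
            congr 1
            linear_combination (-(γ f * ((∏ j ∈ K, (f j).sgn : ℤ) : ℚ))) * h2
          · rw [if_neg hf, if_neg hf, Int.cast_zero, mul_zero, zero_smul, smul_zero]
        rw [Finset.sum_congr rfl this, ← Finset.sum_smul]
        have h0 := h I K hν.symm (hf0.dim.trans hν.symm)
        rw [Finsupp.sum] at h0
        rw [h0, zero_smul]
      · push Not at hex
        refine Finset.sum_eq_zero fun f _ => ?_
        rw [if_neg (hex f), smul_zero]
    have hrest : ∑ f ∈ γ.support, γ f • (pushV f (eP X I x) -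
        ∑ K : Finset (Fin m') with Bij f I K,
          ((∏ j ∈ K, (f j).sgn : ℤ) : ℚ) • eP Y K (f.base x)) ∈ FV Y (ν + 1) := by
      rw [hν]
      exact Submodule.sum_mem _ fun f _ => Submodule.smul_mem _ _ (pushV_eP f I hx)
    have hsum : ∑ f ∈ γ.support, γ f • (∑ K : Finset (Fin m') with Bij f I K,
        ((∏ j ∈ K, (f j).sgn : ℤ) : ℚ) • eP Y K (f.base x)) = 0 := by
      simp_rw [Finset.sum_filter, Finset.smul_sum]
      rw [Finset.sum_comm]
      exact Finset.sum_eq_zero fun K _ => hK K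
    have : ∑ f ∈ γ.support, γ f • pushV f (eP X I x) =
        ∑ f ∈ γ.support, γ f • (pushV f (eP X I x) -
        ∑ K : Finset (Fin m') with Bij f I K,
          ((∏ j ∈ K, (f j).sgn : ℤ) : ℚ) • eP Y K (f.base x)) := by
      rw [← sub_zero (∑ f ∈ γ.support, γ f • pushV f (eP X I x)), ← hsum,
        ← Finset.sum_sub_distrib]
      refine Finset.sum_congr rfl fun f _ => ?_
      rw [smul_sub]
    rw [this]
    exact hrest

end Pool.Agent.VFPP
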