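import Pool.Agent.VFPP.E

/-!
# Products of Calabi-Yau fibre products: the filtration
-/

set_option autoImplicit false
set_option linter.unusedSectionVars false

noncomputable section

namespace Pool.Agent.VFPP

open Pool.Agent.ZCyc Pool.Agent.VFP

universe u

variable {k : Type u} [Field k] [IsAlgClosed k] [CharZero k] {m : ℕ} (X : Fin m → CYF k)

theorem two_le_dim (Z : CYF k) : 2 ≤ Z.dim := by
  have h : Z.N ≠ 0 := by
    intro h0
    have h1 := Z.sum
    have h2 : IsEmpty (Fin Z.N) := by
      rw [h0]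
      infer_instance
    rw [Finset.univ_eq_empty, Finset.sum_empty] at h1
    exact absurd h1 (by norm_num)
  unfold CYF.dim
  omega

private theorem dimS_mono {I K : Finset (Fin m)} (h : I ⊆ K) : dimS X I ≤ dimS X K :=
  Finset.sum_le_sum_of_subset h

private theorem two_le_dimS {I : Finset (Fin m)} (h : I.Nonempty) : 2 ≤ dimS X I := by
  obtain ⟨i, hi⟩ := h
  exact (two_le_dim (X i)).trans (Finset.single_le_sum (f := fun i => (X i).dim)
    (fun _ _ => Nat.zero_le _) hi)

private theorem nonempty_of {I : Finset (Fin m)} (h : 1 ≤ dimS X I) : I.Nonempty := by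
  rw [Finset.nonempty_iff_ne_empty]
  rintro rfl
  simp [dimS] at h

theorem FV_anti {μ ν : ℕ} (h : μ ≤ ν) : FV X ν ≤ FV X μ := by
  apply Submodule.span_mono
  rintro e ⟨I, x, hx, hI, rfl⟩
  exact ⟨I, x, hx, h.trans hI, rfl⟩

private theorem mk_cyc (I : Finset (Fin m)) (x y : Pts m k) :
    (Submodule.Quotient.mk (cyc I x y) : VP X) =
      ∑ S ∈ I.powerset, ((-1 : ℚ) ^ S.card) • clP X (fun i => if i ∈ S then y i else x i) := by
  rw [cyc, ← Submodule.mkQ_apply, map_sum]
  refine Finset.sum_congr rfl fun S _ => ?_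
  rw [clP, ← Submodule.mkQ_apply, ← map_smul, Finsupp.smul_single, smul_eq_mul, mul_one]

private theorem onP_ite {I : Finset (Fin m)} {x y : Pts m k} (hx : OnP X x) (hy : OnP X y) :
    OnP X (fun i => if i ∈ I then y i else x i) := by
  intro i
  by_cases h : i ∈ I
  · simpa [h] using hy i
  · simpa [h] using hx i

/-- expand `[x i] = [o] + ([x i] - [o])` -/
private theorem mk_cyc_mem {I : Finset (Fin m)} {x y : Pts m k} (hx : OnP X x) (hy : OnP X y) :
    (Submodule.Quotient.mk (cyc I x y) : VP X) ∈ FV X (dimS X I) := by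
  classical
  rw [mk_cyc]
  have h1 : ∀ S ∈ I.powerset, ((-1 : ℚ) ^ S.card) • clP X (fun i => if i ∈ S then y i else x i) =
      ∑ K : Finset (Fin m), ((-1 : ℚ) ^ S.card) •
        eP X K (fun i => if i ∈ S then y i else x i) := by
    intro S _
    rw [clP_eq_sum, Finset.smul_sum]
  rw [Finset.sum_congr rfl h1, Finset.sum_comm]
  refine Submodule.sum_mem _ fun K _ => ?_
  by_cases hK : I ⊆ K
  · refine Submodule.sum_mem _ fun S _ => Submodule.smul_mem _ _ (Submodule.subset_span ?_)
    exact ⟨K, _, onP_ite X hx hy, dimS_mono X hK, rfl⟩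
  · obtain ⟨i, hiI, hiK⟩ := Finset.not_subset.1 hK
    have h2 : ∑ S ∈ I.powerset, ((-1 : ℚ) ^ S.card) •
        eP X K (fun i => if i ∈ S then y i else x i) = 0 := by
      have h3 : I = insert i (I.erase i) := (Finset.insert_erase hiI).symm
      rw [h3, Finset.sum_powerset_insert (Finset.notMem_erase i I), ← Finset.sum_add_distrib]
      apply Finset.sum_eq_zero
      intro S hS
      have hiS : i ∉ S := fun h => Finset.notMem_erase i I (Finset.mem_powerset.1 hS h)
      rw [Finset.card_insert_of_notMem hiS, pow_succ, mul_neg_one, neg_smul]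
      rw [eP_congr (x := fun j => if j ∈ insert i S then y j else x j)
        (y := fun j => if j ∈ S then y j else x j) K, add_neg_cancel]
      intro j hj
      have hji : j ≠ i := fun h => hiK (h ▸ hj)
      simp only [Finset.mem_insert, hji, false_or]
    rw [h2]
    exact zero_mem _

theorem Fil_ge (ν : ℕ) : ratEqP X ≤ Fil X ν := le_sup_right

theorem Fil_eq (ν : ℕ) : Fil X ν = (FV X ν).comap (ratEqP X).mkQ := by
  apply le_antisymm
  · apply sup_le
    · rw [Submodule.span_le]
      rintro z ⟨I, x, y, hx, hy, hI, rfl⟩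
      exact FV_anti X hI (mk_cyc_mem X hx hy)
    · intro z hz
      rw [Submodule.mem_comap, Submodule.mkQ_apply, (Submodule.Quotient.mk_eq_zero _).2 hz]
      exact zero_mem _
  · have h1 : FV X ν ≤ (Fil X ν).map (ratEqP X).mkQ := by
      rw [FV, Submodule.span_le]
      rintro e ⟨I, x, hx, hI, rfl⟩
      refine ⟨cyc I (res I x) (fun _ => oo), ?_, ?_⟩
      · exact Submodule.mem_sup_left (Submodule.subset_span
          ⟨I, _, _, onP_res hx I, fun i => onX_oo (X i), hI, rfl⟩)
      · rw [Submodule.mkQ_apply, mk_cyc]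
        unfold eP
        refine Finset.sum_congr rfl fun S _ => ?_
        congr 2
        funext i
        by_cases h1 : i ∈ S
        · simp [res, h1]
        · simp [res, h1]
    refine (Submodule.comap_mono h1).trans ?_
    rw [Submodule.comap_map_mkQ]
    exact sup_le (Fil_ge X ν) le_rfl

theorem Fil_anti (ν : ℕ) : Fil X (ν + 1) ≤ Fil X ν := by
  rw [Fil_eq, Fil_eq]
  exact Submodule.comap_mono (FV_anti X (Nat.le_succ ν))

private theorem supp_le_Fil_zero {z : Pts m k →₀ ℚ} (h : ∀ p ∈ z.support, OnP X p) :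
    z ∈ Fil X 0 := by
  rw [← Finsupp.sum_single z]
  refine Submodule.sum_mem _ fun p hp => ?_
  have h1 : Finsupp.single p (z p) = z p • cyc ∅ p p := by
    simp [cyc]
  rw [h1]
  exact Submodule.smul_mem _ _ (Submodule.mem_sup_left (Submodule.subset_span
    ⟨∅, p, p, h p hp, h p hp, Nat.zero_le _, rfl⟩))

theorem Fil_zero (z : Pts m k →₀ ℚ) : z ∈ Fil X 0 ↔ ∀ p ∈ z.support, OnP X p := by
  constructor
  · intro hz
    have h1 : Fil X 0 ≤ Finsupp.supported ℚ ℚ {p | OnP X p} := by
      apply sup_le
      · rw [Submodule.span_le]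
        rintro z ⟨I, x, y, hx, hy, -, rfl⟩
        refine Submodule.sum_mem _ fun S _ => Finsupp.single_mem_supported _ _ ?_
        exact onP_ite X hx hy
      · intro z hz p hp
        exact (ratEqP_supp hz).1 p hp
    intro p hp
    exact h1 hz hp
  · exact supp_le_Fil_zero X

theorem Fil_one (z : Pts m k →₀ ℚ) :
    z ∈ Fil X 1 ↔ (∀ p ∈ z.support, OnP X p) ∧ (z.sum fun _ c => c) = 0 := by
  classical
  constructor
  · intro hz
    refine ⟨(Fil_zero X z).1 (Fil_anti X 0 hz), ?_⟩
    let d : (Pts m k →₀ ℚ) →ₗ[ℚ] ℚ := Finsupp.lsum ℚ fun _ => LinearMap.id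
    have hd : ∀ z, d z = z.sum fun _ c => c := fun z => rfl
    have h1 : Fil X 1 ≤ LinearMap.ker d := by
      apply sup_le
      · rw [Submodule.span_le]
        rintro z ⟨I, x, y, -, -, hI, rfl⟩
        rw [SetLike.mem_coe, LinearMap.mem_ker, cyc, map_sum]
        have h2 : ∀ S ∈ I.powerset, d (Finsupp.single (fun i => if i ∈ S then y i else x i)
            ((-1) ^ S.card)) = (((-1 : ℤ) ^ S.card : ℤ) : ℚ) := by
          intro S _
          rw [hd, Finsupp.sum_single_index rfl]
          push_cast
          rfl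
        rw [Finset.sum_congr rfl h2, ← Int.cast_sum, Finset.sum_powerset_neg_one_pow_card,
          if_neg, Int.cast_zero]
        exact (nonempty_of X hI).ne_empty
      · intro z hz
        rw [LinearMap.mem_ker, hd]
        exact (ratEqP_supp hz).2
    exact h1 hz
  · rintro ⟨h1, h2⟩
    rw [Fil_eq, Submodule.mem_comap]
    have h3 : (ratEqP X).mkQ z = z.sum fun p c => c • (clP X p - clP X fun _ => oo) := by
      simp only [smul_sub]
      rw [Finsupp.sum_sub]
      have h5 : (z.sum fun p c => c • clP X fun _ => oo) = 0 := by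
        rw [Finsupp.sum, ← Finset.sum_smul]
        exact (congrArg (· • clP X fun _ => oo) h2).trans (zero_smul _ _)
      rw [h5, sub_zero]
      conv_lhs => rw [← Finsupp.sum_single z]
      rw [Finsupp.sum, map_sum, Finsupp.sum]
      refine Finset.sum_congr rfl fun p _ => ?_
      rw [clP, ← Submodule.mkQ_apply, ← map_smul, Finsupp.smul_single, smul_eq_mul, mul_one]
    rw [h3]
    refine Submodule.sum_mem _ fun p hp => Submodule.smul_mem _ _ ?_
    have h4 : clP X p - (clP X fun _ => oo) =
        ∑ I ∈ Finset.univ.erase (∅ : Finset (Fin m)), eP X I p := by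
      rw [clP_eq_sum, ← Finset.add_sum_erase _ _ (Finset.mem_univ ∅)]
      have h5 : eP X ∅ p = clP X fun _ => oo := by
        unfold eP
        rw [Finset.powerset_empty, Finset.sum_singleton, Finset.card_empty, pow_zero, one_smul]
        congr 1
      rw [h5, add_sub_cancel_left]
    rw [h4]
    refine Submodule.sum_mem _ fun I hI => Submodule.subset_span
      ⟨I, p, h1 p hp, ?_, rfl⟩
    have h5 := two_le_dimS X (Finset.nonempty_iff_ne_empty.2 (Finset.ne_of_mem_erase hI))
    omega

/-- all dimensions are at least `2` -/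
theorem Fil_two : Fil X 2 = Fil X 1 := by
  apply le_antisymm (Fil_anti X 1)
  apply sup_le_sup_right
  apply Submodule.span_mono
  rintro z ⟨I, x, y, hx, hy, hI, rfl⟩
  exact ⟨I, x, y, hx, hy, two_le_dimS X (nonempty_of X hI), rfl⟩

theorem Fil_top : Fil X (dimS X Finset.univ + 1) = ratEqP X := by
  rw [Fil, sup_eq_right, Submodule.span_le]
  rintro z ⟨I, x, y, -, -, hI, -⟩
  have h1 := dimS_mono X (Finset.subset_univ I)
  omega

end Pool.Agent.VFPP
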